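import Mathlib

/-!
# Common factorization of polynomials in two variables over a finite extension of the constants
-/

set_option autoImplicit false

namespace Pool.Agent.KTW

open MvPolynomial

universe u

section UFD

variable {R : Type*} [CommRing R] [IsDomain R] [UniqueFactorizationMonoid R]

/-- the common factorization of finitely many elements of a factorial ring -/
theorem exists_common_factor {r : ℕ} (h : Fin r → R) (h0 : ∀ i, h i ≠ 0) :
    ∃ (m : ℕ) (π : Fin m → R) (e : Fin r → Rˣ) (a : Fin r → Fin m → ℕ),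
      (∀ j, Irreducible (π j)) ∧ (∀ i j, i ≠ j → ¬ Associated (π i) (π j)) ∧
      ∏ j, π j ∣ ∏ i, h i ∧ ∀ i, h i = e i * ∏ j, π j ^ a i j := by
  classical
  have hH : ∏ i, h i ≠ 0 := Finset.prod_ne_zero_iff.2 fun i _ => h0 i
  obtain ⟨M, hM⟩ : ∃ M, M = (UniqueFactorizationMonoid.factors (∏ i, h i)).map Associates.mk :=
    ⟨_, rfl⟩
  obtain ⟨s, hs⟩ : ∃ s, s = M.toFinset := ⟨_, rfl⟩
  have hprod : ∀ x : R, x ≠ 0 →
      ((UniqueFactorizationMonoid.factors x).map Associates.mk).prod = Associates.mk x := by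
    intro x hx
    rw [Associates.prod_mk]
    exact Associates.mk_eq_mk_iff_associated.2 (UniqueFactorizationMonoid.factors_prod hx)
  have hout : ∀ c : Associates R, Associates.mk (Quot.out c) = c := Associates.quot_out
  have hfin : ∀ g : Associates R → Associates R,
      ∏ j, g (s.equivFin.symm j : Associates R) = ∏ c ∈ s, g c := by
    intro g
    rw [← Finset.prod_coe_sort s g]
    exact Equiv.prod_comp s.equivFin.symm fun c => g (c : Associates R)
  have hmk : ∀ b : Fin s.card → ℕ,
      Associates.mk (∏ j, Quot.out (s.equivFin.symm j : Associates R) ^ b j) =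
        ∏ j, (s.equivFin.symm j : Associates R) ^ b j := by
    intro b
    have h1 := map_prod (Associates.mkMonoidHom (M := R))
      (fun j => Quot.out (s.equivFin.symm j : Associates R) ^ b j) Finset.univ
    refine h1.trans (Finset.prod_congr rfl fun j _ => ?_)
    rw [map_pow]
    congr 1
    exact hout _
  have hirr : ∀ c ∈ s, Irreducible (Quot.out c) := by
    intro c hc
    rw [hs, Multiset.mem_toFinset, hM, Multiset.mem_map] at hc
    obtain ⟨f, hf, rfl⟩ := hc
    have h1 := UniqueFactorizationMonoid.irreducible_of_factor f hf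
    rw [← Associates.irreducible_mk, hout, Associates.irreducible_mk]
    exact h1
  have hsub : ∀ i, ((UniqueFactorizationMonoid.factors (h i)).map Associates.mk).toFinset ⊆ s := by
    intro i c hc
    rw [Multiset.mem_toFinset, Multiset.mem_map] at hc
    obtain ⟨f, hf, rfl⟩ := hc
    have h1 := UniqueFactorizationMonoid.irreducible_of_factor f hf
    have h2 : f ∣ ∏ i, h i := (UniqueFactorizationMonoid.dvd_of_mem_factors hf).trans
      (Finset.dvd_prod_of_mem h (Finset.mem_univ i))
    obtain ⟨g, hg, hfg⟩ := UniqueFactorizationMonoid.exists_mem_factors_of_dvd hH h1 h2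
    rw [hs, Multiset.mem_toFinset, hM, Multiset.mem_map]
    exact ⟨g, hg, (Associates.mk_eq_mk_iff_associated.2 hfg).symm⟩
  have key : ∀ i, Associated (∏ j, Quot.out (s.equivFin.symm j : Associates R) ^
      ((UniqueFactorizationMonoid.factors (h i)).map Associates.mk).count
        (s.equivFin.symm j : Associates R)) (h i) := by
    intro i
    rw [← Associates.mk_eq_mk_iff_associated, hmk, ← hprod (h i) (h0 i),
      Finset.prod_multiset_count_of_subset _ s (hsub i)]
    exact hfin fun c => c ^
      ((UniqueFactorizationMonoid.factors (h i)).map Associates.mk).count c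
  refine ⟨s.card, fun j => Quot.out (s.equivFin.symm j : Associates R),
    fun i => (key i).choose, fun i j =>
      ((UniqueFactorizationMonoid.factors (h i)).map Associates.mk).count
        (s.equivFin.symm j : Associates R), fun j => hirr _ (s.equivFin.symm j).2, ?_, ?_, ?_⟩
  · intro i j hij hass
    apply hij
    have h1 := Associates.mk_eq_mk_iff_associated.2 hass
    rw [hout, hout] at h1
    exact s.equivFin.symm.injective (Subtype.ext h1)
  · rw [← Associates.mk_dvd_mk]
    have h1 := hmk fun _ => 1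
    simp only [pow_one] at h1
    rw [h1, ← hprod _ hH, ← hM, Finset.prod_multiset_count_of_subset M s hs.ge,
      hfin fun c => c]
    refine Finset.prod_dvd_prod_of_dvd _ _ fun c hc => dvd_pow_self c ?_
    rw [Multiset.count_ne_zero, ← Multiset.mem_toFinset, ← hs]
    exact hc
  · intro i
    exact ((mul_comm _ _).trans (key i).choose_spec).symm

end UFD

section Weights

variable {σ : Type*} {R : Type*} [CommRing R]

/-- substitution `X_i ↦ X_i T ^ ω_i` -/
noncomputable def tw (ω : σ → ℕ) :
    MvPolynomial σ R →ₐ[R] Polynomial (MvPolynomial σ R) :=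
  MvPolynomial.aeval fun i => Polynomial.C (X i) * Polynomial.X ^ ω i

theorem tw_monomial (ω : σ → ℕ) (d : σ →₀ ℕ) (c : R) :
    tw ω (monomial d c) = Polynomial.C (monomial d c) * Polynomial.X ^ Finsupp.weight ω d := by
  rw [tw, MvPolynomial.aeval_monomial, MvPolynomial.monomial_eq (s := d) (a := c), map_mul,
    mul_assoc]
  congr 1
  rw [Finsupp.prod, Finsupp.prod, map_prod, Finsupp.weight_apply, Finsupp.sum,
    ← Finset.prod_pow_eq_pow_sum, ← Finset.prod_mul_distrib]
  refine Finset.prod_congr rfl fun i _ => ?_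
  rw [mul_pow, map_pow, ← pow_mul, smul_eq_mul, mul_comm (ω i)]

theorem coeff_tw (ω : σ → ℕ) (f : MvPolynomial σ R) (d : σ →₀ ℕ) :
    MvPolynomial.coeff d ((tw ω f).coeff (Finsupp.weight ω d)) = MvPolynomial.coeff d f := by
  classical
  induction f using MvPolynomial.induction_on' with
  | monomial e c =>
    rw [tw_monomial, Polynomial.coeff_C_mul_X_pow, MvPolynomial.coeff_monomial]
    split_ifs with h1 h2 h2
    · rw [h2, MvPolynomial.coeff_monomial, if_pos rfl]
    · rw [MvPolynomial.coeff_monomial, if_neg h2]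
    · exact absurd (by rw [h2]) h1
    · exact MvPolynomial.coeff_zero _
  | add p q hp hq =>
    rw [map_add, Polynomial.coeff_add, MvPolynomial.coeff_add, hp, hq, MvPolynomial.coeff_add]

theorem natDegree_tw (ω : σ → ℕ) (f : MvPolynomial σ R) :
    (tw ω f).natDegree = MvPolynomial.weightedTotalDegree ω f := by
  classical
  apply le_antisymm
  · have h1 : tw ω f = ∑ d ∈ f.support,
        Polynomial.C (monomial d (MvPolynomial.coeff d f)) *
          Polynomial.X ^ Finsupp.weight ω d := by
      conv_lhs => rw [MvPolynomial.as_sum f]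
      rw [map_sum]
      exact Finset.sum_congr rfl fun d _ => tw_monomial ω d _
    rw [h1]
    refine Polynomial.natDegree_sum_le_of_forall_le _ _ fun d hd => ?_
    exact (Polynomial.natDegree_C_mul_X_pow_le _ _).trans
      (MvPolynomial.le_weightedTotalDegree ω hd)
  · rw [MvPolynomial.weightedTotalDegree]
    refine Finset.sup_le fun d hd => ?_
    refine Polynomial.le_natDegree_of_ne_zero fun h0 => ?_
    have h1 := coeff_tw ω f d
    rw [h0, MvPolynomial.coeff_zero] at h1
    exact (MvPolynomial.mem_support_iff.1 hd) h1.symm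

theorem tw_ne_zero (ω : σ → ℕ) {f : MvPolynomial σ R} (hf : f ≠ 0) : tw ω f ≠ 0 := by
  intro h0
  apply hf
  ext d
  have h1 := coeff_tw ω f d
  rw [h0, Polynomial.coeff_zero, MvPolynomial.coeff_zero] at h1
  rw [← h1, MvPolynomial.coeff_zero]

theorem wtd_mul_eq [IsDomain R] (ω : σ → ℕ) {f g : MvPolynomial σ R} (hf : f ≠ 0)
    (hg : g ≠ 0) : MvPolynomial.weightedTotalDegree ω (f * g) =
      MvPolynomial.weightedTotalDegree ω f + MvPolynomial.weightedTotalDegree ω g := by
  rw [← natDegree_tw, ← natDegree_tw, ← natDegree_tw, map_mul]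
  exact Polynomial.natDegree_mul (tw_ne_zero ω hf) (tw_ne_zero ω hg)

theorem wtd_prod_eq [IsDomain R] (ω : σ → ℕ) {ι : Type*} (s : Finset ι)
    (f : ι → MvPolynomial σ R) (hf : ∀ i ∈ s, f i ≠ 0) :
    MvPolynomial.weightedTotalDegree ω (∏ i ∈ s, f i) =
      ∑ i ∈ s, MvPolynomial.weightedTotalDegree ω (f i) := by
  rw [← natDegree_tw, map_prod,
    Polynomial.natDegree_prod s _ fun i hi => tw_ne_zero ω (hf i hi)]
  exact Finset.sum_congr rfl fun i _ => natDegree_tw ω (f i)

theorem wtd_pow_eq [IsDomain R] (ω : σ → ℕ) (f : MvPolynomial σ R) (n : ℕ) :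
    MvPolynomial.weightedTotalDegree ω (f ^ n) =
      n * MvPolynomial.weightedTotalDegree ω f := by
  rw [← natDegree_tw, map_pow, Polynomial.natDegree_pow, natDegree_tw]

theorem wtd_le_of_dvd [IsDomain R] (ω : σ → ℕ) {f g : MvPolynomial σ R} (hg : g ≠ 0)
    (h : f ∣ g) : MvPolynomial.weightedTotalDegree ω f ≤
      MvPolynomial.weightedTotalDegree ω g := by
  obtain ⟨c, rfl⟩ := h
  rw [wtd_mul_eq ω (left_ne_zero_of_mul hg) (right_ne_zero_of_mul hg)]
  exact Nat.le_add_right _ _

theorem wtd_map {S : Type*} [CommRing S] (ω : σ → ℕ) (φ : R →+* S)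
    (hφ : Function.Injective φ) (f : MvPolynomial σ R) :
    MvPolynomial.weightedTotalDegree ω (MvPolynomial.map φ f) =
      MvPolynomial.weightedTotalDegree ω f := by
  rw [MvPolynomial.weightedTotalDegree, MvPolynomial.weightedTotalDegree,
    MvPolynomial.support_map_of_injective _ hφ]

end Weights

section Units

variable {σ : Type*}

theorem isUnit_of_map {K L : Type*} [Field K] [Field L] (φ : K →+* L)
    {f : MvPolynomial σ K} (h : IsUnit (MvPolynomial.map φ f)) : IsUnit f := by
  rw [MvPolynomial.isUnit_iff] at h ⊢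
  obtain ⟨h1, h2⟩ := h
  rw [MvPolynomial.coeff_map] at h1
  refine ⟨isUnit_iff_ne_zero.2 fun h0 => ?_, fun d hd => ?_⟩
  · rw [h0, map_zero] at h1
    exact not_isUnit_zero h1
  · have h3 := h2 d hd
    rw [MvPolynomial.coeff_map, isNilpotent_iff_eq_zero] at h3
    rw [isNilpotent_iff_eq_zero]
    exact (map_eq_zero φ).1 h3

theorem irreducible_of_map {K L : Type*} [Field K] [Field L] (φ : K →+* L)
    {f : MvPolynomial σ K} (h : Irreducible (MvPolynomial.map φ f)) : Irreducible f := by
  refine ⟨fun h0 => h.not_isUnit (h0.map _), fun a b hab => ?_⟩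
  have h1 := h.isUnit_or_isUnit (a := MvPolynomial.map φ a) (b := MvPolynomial.map φ b)
    (by rw [hab, map_mul])
  exact h1.imp (isUnit_of_map φ) (isUnit_of_map φ)

end Units

/-- factorization of polynomials over a finite extension of the constants -/
theorem exists_factor {k M : Type u} [Field k] [Field M] [Algebra k M] [IsAlgClosed M] {r : ℕ}
    (h : Fin r → MvPolynomial (Fin 2) k) (h0 : ∀ i, h i ≠ 0) (ω : Fin 2 → ℕ) (N : ℕ)
    (hN : 0 < N) (T : Finset M) (hT : ∀ c ∈ T, IsAlgebraic k c) :
    ∃ (C₀ : Finset M) (m : ℕ)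
      (π : Fin m → MvPolynomial (Fin 2) (IntermediateField.adjoin k (C₀ : Set M)))
      (u : Fin r → M) (a : Fin r → Fin m → ℕ),
      (∀ c ∈ C₀, IsAlgebraic k c) ∧ T ⊆ C₀ ∧ (∀ j, Irreducible (π j)) ∧
      (∀ i j, i ≠ j → ¬ Associated (π i) (π j)) ∧
      ∑ j, MvPolynomial.weightedTotalDegree ω (π j) ≤
        ∑ i, MvPolynomial.weightedTotalDegree ω (h i) ∧
      (∀ i, ∑ j, a i j * MvPolynomial.weightedTotalDegree ω (π j) =
        MvPolynomial.weightedTotalDegree ω (h i)) ∧
      (∀ i, u i ∈ IntermediateField.adjoin k (C₀ : Set M)) ∧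
      ∀ (x : Fin 2 → M) (i : Fin r), MvPolynomial.aeval x (h i) =
        u i ^ N * ∏ j, MvPolynomial.aeval x (π j) ^ a i j := by
  classical
  obtain ⟨K, hK⟩ : ∃ K : IntermediateField k M, K = algebraicClosure k M := ⟨_, rfl⟩
  have hKc : IsAlgClosed K := by
    rw [hK]
    exact (algebraicClosure.isAlgClosure k M).isAlgClosed
  have hKa : ∀ c ∈ K, IsAlgebraic k c := fun c hc => by
    rw [hK, mem_algebraicClosure_iff] at hc
    exact hc
  obtain ⟨m, π, e, a, h1, h2, h3, h4⟩ := exists_common_factor
    (fun i => MvPolynomial.map (algebraMap k K) (h i)) fun i hi => h0 i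
      ((map_eq_zero_iff _ (MvPolynomial.map_injective _ (algebraMap k K).injective)).1 hi)
  -- the units are constants, and `N`-th powers
  have h5 : ∀ i, ∃ v : K, (e i : MvPolynomial (Fin 2) K) = C v ^ N := by
    intro i
    have h6 := (MvPolynomial.isUnit_iff_totalDegree_of_isReduced.1 (e i).isUnit)
    obtain ⟨v, hv⟩ := IsAlgClosed.exists_pow_nat_eq
      (MvPolynomial.coeff 0 (e i : MvPolynomial (Fin 2) K)) hN
    refine ⟨v, ?_⟩
    rw [← map_pow, hv]
    exact MvPolynomial.totalDegree_eq_zero_iff_eq_C.1 h6.2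
  choose v hv using h5
  obtain ⟨C₀, hC₀⟩ : ∃ C₀ : Finset M, C₀ = T ∪
      (Finset.univ.biUnion fun j => (π j).support.image fun d =>
        ((MvPolynomial.coeff d (π j) : K) : M)) ∪
      (Finset.univ.image fun i => ((v i : K) : M)) := ⟨_, rfl⟩
  have hCalg : ∀ c ∈ C₀, IsAlgebraic k c := by
    intro c hc
    rw [hC₀, Finset.mem_union, Finset.mem_union, Finset.mem_biUnion, Finset.mem_image] at hc
    rcases hc with (hc | ⟨j, -, hc⟩) | ⟨i, -, rfl⟩
    · exact hT c hc
    · rw [Finset.mem_image] at hc
      obtain ⟨d, -, rfl⟩ := hc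
      exact hKa _ (MvPolynomial.coeff d (π j)).2
    · exact hKa _ (v i).2
  have hle : IntermediateField.adjoin k (C₀ : Set M) ≤ K := by
    rw [IntermediateField.adjoin_le_iff]
    intro c hc
    rw [hK]
    exact mem_algebraicClosure_iff.2 (hCalg c hc)
  have hcoef : ∀ j d, ((MvPolynomial.coeff d (π j) : K) : M) ∈
      IntermediateField.adjoin k (C₀ : Set M) := by
    intro j d
    by_cases hd : d ∈ (π j).support
    · refine IntermediateField.subset_adjoin k _ (Finset.mem_coe.2 ?_)
      rw [hC₀]
      refine Finset.mem_union_left _ (Finset.mem_union_right _ (Finset.mem_biUnion.2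
        ⟨j, Finset.mem_univ _, Finset.mem_image.2 ⟨d, hd, rfl⟩⟩))
    · rw [MvPolynomial.notMem_support_iff.1 hd]
      exact (IntermediateField.adjoin k (C₀ : Set M)).zero_mem
  let ι : IntermediateField.adjoin k (C₀ : Set M) →+* K :=
    (IntermediateField.inclusion hle).toRingHom
  have hι : ∀ c, ((ι c : K) : M) = (c : M) := fun c => rfl
  have hex : ∀ j, ∃ p : MvPolynomial (Fin 2) (IntermediateField.adjoin k (C₀ : Set M)),
      MvPolynomial.map ι p = π j := by
    intro j
    have h6 : π j ∈ Set.range (MvPolynomial.map (σ := Fin 2) ι) := by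
      rw [MvPolynomial.mem_range_map_iff_coeffs_subset]
      intro c hc
      rw [Finset.mem_coe, MvPolynomial.mem_coeffs_iff] at hc
      obtain ⟨d, -, rfl⟩ := hc
      exact ⟨⟨_, hcoef j d⟩, Subtype.ext rfl⟩
    exact h6
  choose ρ hρ using hex
  have hwt : ∀ j, MvPolynomial.weightedTotalDegree ω (ρ j) =
      MvPolynomial.weightedTotalDegree ω (π j) := fun j => by
    rw [← hρ j, wtd_map ω ι ι.injective]
  refine ⟨C₀, m, ρ, fun i => ((v i : K) : M), a, hCalg, ?_, ?_, ?_, ?_, ?_, ?_, ?_⟩
  · intro c hc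
    rw [hC₀]
    exact Finset.mem_union_left _ (Finset.mem_union_left _ hc)
  · intro j
    refine irreducible_of_map ι ?_
    rw [hρ]
    exact h1 j
  · intro i j hij hass
    apply h2 i j hij
    rw [← hρ i, ← hρ j]
    exact hass.map (MvPolynomial.map ι)
  · have h7 : ∀ i, MvPolynomial.weightedTotalDegree ω (h i) =
        MvPolynomial.weightedTotalDegree ω (MvPolynomial.map (algebraMap k K) (h i)) :=
      fun i => (wtd_map ω _ (algebraMap k K).injective _).symm
    have h8 : ∀ i, MvPolynomial.map (algebraMap k K) (h i) ≠ 0 := fun i hi => h0 i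
      ((map_eq_zero_iff _ (MvPolynomial.map_injective _ (algebraMap k K).injective)).1 hi)
    rw [Finset.sum_congr rfl fun j _ => hwt j, Finset.sum_congr rfl fun i _ => h7 i,
      ← wtd_prod_eq ω _ _ fun j _ => (h1 j).ne_zero, ← wtd_prod_eq ω _ _ fun i _ => h8 i]
    exact wtd_le_of_dvd ω (Finset.prod_ne_zero_iff.2 fun i _ => h8 i) h3
  · intro i
    have h6 : MvPolynomial.map (algebraMap k K) (h i) ≠ 0 := fun hi => h0 i
      ((map_eq_zero_iff _ (MvPolynomial.map_injective _ (algebraMap k K).injective)).1 hi)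
    have h7 : (∏ j, π j ^ a i j) ≠ 0 :=
      Finset.prod_ne_zero_iff.2 fun j _ => pow_ne_zero _ (h1 j).ne_zero
    have h8 : (e i : MvPolynomial (Fin 2) K) ≠ 0 := (e i).ne_zero
    have h9 : MvPolynomial.weightedTotalDegree ω (e i : MvPolynomial (Fin 2) K) = 0 := by
      have h10 : MvPolynomial.weightedTotalDegree ω (e i : MvPolynomial (Fin 2) K) ≤
          MvPolynomial.weightedTotalDegree ω (1 : MvPolynomial (Fin 2) K) :=
        wtd_le_of_dvd ω one_ne_zero (e i).isUnit.dvd
      have h11 : MvPolynomial.weightedTotalDegree ω (1 : MvPolynomial (Fin 2) K) = 0 := by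
        rw [← natDegree_tw, map_one, Polynomial.natDegree_one]
      rw [h11] at h10
      exact Nat.le_zero.1 h10
    rw [← wtd_map ω (algebraMap k K) (algebraMap k K).injective (h i), h4 i,
      wtd_mul_eq ω h8 h7, h9, zero_add,
      wtd_prod_eq ω _ _ fun j _ => pow_ne_zero _ (h1 j).ne_zero]
    exact Finset.sum_congr rfl fun j _ => by rw [wtd_pow_eq ω, hwt j]
  · intro i
    refine IntermediateField.subset_adjoin k _ (Finset.mem_coe.2 ?_)
    rw [hC₀]
    exact Finset.mem_union_right _ (Finset.mem_image.2 ⟨i, Finset.mem_univ _, rfl⟩)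
  · intro x i
    have h6 : MvPolynomial.aeval x (h i) =
        MvPolynomial.aeval x (MvPolynomial.map (algebraMap k K) (h i)) :=
      (MvPolynomial.aeval_map_algebraMap K x (h i)).symm
    have h7 : ∀ j, MvPolynomial.aeval x (ρ j) = MvPolynomial.aeval x (π j) := by
      intro j
      rw [← hρ j, MvPolynomial.aeval_def, MvPolynomial.aeval_def, MvPolynomial.eval₂_map]
      rfl
    rw [h6, h4 i, map_mul, map_prod, hv i, map_pow, MvPolynomial.aeval_C]
    congr 1
    refine Finset.prod_congr rfl fun j _ => ?_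
    rw [map_pow, h7 j]

end Pool.Agent.KTW
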