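import Mathlib

/-!
# The weight condition for exponent vectors
-/

set_option autoImplicit false

namespace Pool.Agent.KTW

/-- the weight condition for the exponent vector `e`, or its opposite, modulo `d` -/
def Cnd {m : ℕ} (d s : ℕ) (wt : Fin m → ℕ) (e : Fin m → ℕ) : Prop :=
  ∑ j, (e j % d) * wt j ≤ d * s ∨ ∑ j, ((d - e j % d) % d) * wt j ≤ d * s

theorem val_sum_le {r N : ℕ} [NeZero N] (a : Fin r → ℕ) (e : Fin r → ZMod N) :
    (∑ i, (a i : ZMod N) * e i).val ≤ ∑ i, a i * (e i).val := by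
  have h1 : (∑ i, (a i : ZMod N) * e i) = ((∑ i, a i * (e i).val : ℕ) : ZMod N) := by
    rw [Nat.cast_sum]
    refine Finset.sum_congr rfl fun i _ => ?_
    rw [Nat.cast_mul, ZMod.natCast_zmod_val]
  rw [h1, ZMod.val_natCast]
  exact Nat.mod_le _ _

theorem sum_swap_le {r m s : ℕ} (a : Fin r → Fin m → ℕ) (wtp : Fin m → ℕ)
    (wth : Fin r → ℕ) (ha : ∀ i, ∑ j, a i j * wtp j ≤ wth i) (c : Fin r → ℕ)
    (b : Fin m → ℕ) (hb : ∀ j, b j ≤ ∑ i, a i j * c i) (h : ∑ i, c i * wth i ≤ s) :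
    ∑ j, b j * wtp j ≤ s := by
  refine le_trans ?_ h
  calc ∑ j, b j * wtp j ≤ ∑ j, (∑ i, a i j * c i) * wtp j :=
        Finset.sum_le_sum fun j _ => Nat.mul_le_mul_right _ (hb j)
    _ = ∑ j, ∑ i, c i * (a i j * wtp j) := by
        refine Finset.sum_congr rfl fun j _ => ?_
        rw [Finset.sum_mul]
        exact Finset.sum_congr rfl fun i _ => by ring
    _ = ∑ i, c i * ∑ j, a i j * wtp j := by
        rw [Finset.sum_comm]
        exact Finset.sum_congr rfl fun i _ => by rw [Finset.mul_sum]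
    _ ≤ ∑ i, c i * wth i := Finset.sum_le_sum fun i _ => Nat.mul_le_mul_left _ (ha i)

theorem cnd_of_W {r m N s : ℕ} [NeZero N] (a : Fin r → Fin m → ℕ) (wtp : Fin m → ℕ)
    (wth : Fin r → ℕ) (ha : ∀ i, ∑ j, a i j * wtp j ≤ wth i) (e : Fin r → ZMod N)
    (h : ∑ i, (e i).val * wth i ≤ N * s ∨ ∑ i, (-e i).val * wth i ≤ N * s)
    (b : Fin m → ℕ) (hb : ∀ j, (b j : ZMod N) = ∑ i, (a i j : ZMod N) * e i) :
    Cnd N s wtp b := by
  have h1 : ∀ j, b j % N = (∑ i, (a i j : ZMod N) * e i).val := fun j => by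
    rw [← hb j, ZMod.val_natCast]
  have h2 : ∀ j, (N - b j % N) % N = (∑ i, (a i j : ZMod N) * (-e i)).val := fun j => by
    have h3 : (∑ i, (a i j : ZMod N) * (-e i)) = -∑ i, (a i j : ZMod N) * e i := by
      rw [← Finset.sum_neg_distrib]
      exact Finset.sum_congr rfl fun i _ => mul_neg _ _
    rw [h3, ZMod.neg_val', h1 j]
  rcases h with h | h
  · left
    refine sum_swap_le a wtp wth ha (fun i => (e i).val) (fun j => b j % N) (fun j => ?_) h
    show b j % N ≤ _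
    rw [h1 j]
    exact val_sum_le _ _
  · right
    refine sum_swap_le a wtp wth ha (fun i => (-e i).val) (fun j => (N - b j % N) % N)
      (fun j => ?_) h
    show (N - b j % N) % N ≤ _
    rw [h2 j]
    exact val_sum_le (fun i => a i j) fun i => -e i

theorem cnd_scale {m : ℕ} (q d : ℕ) (hq : 0 < q) (_hd : 0 < d) {s : ℕ} {wt : Fin m → ℕ}
    {e : Fin m → ℕ} : Cnd (q * d) s wt (fun j => q * e j) ↔ Cnd d s wt e := by
  have h1 : ∑ j, (q * e j % (q * d)) * wt j = q * ∑ j, (e j % d) * wt j := by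
    rw [Finset.mul_sum]
    refine Finset.sum_congr rfl fun j _ => ?_
    rw [Nat.mul_mod_mul_left, mul_assoc]
  have h2 : ∑ j, ((q * d - q * e j % (q * d)) % (q * d)) * wt j =
      q * ∑ j, ((d - e j % d) % d) * wt j := by
    rw [Finset.mul_sum]
    refine Finset.sum_congr rfl fun j _ => ?_
    rw [Nat.mul_mod_mul_left, ← Nat.mul_sub, Nat.mul_mod_mul_left, mul_assoc]
  have h3 : ∀ a : ℕ, q * a ≤ q * d * s ↔ a ≤ d * s := fun a => by
    rw [mul_assoc]
    exact Nat.mul_le_mul_left_iff hq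
  rw [Cnd, Cnd, h1, h2, h3, h3]

theorem cnd_div {m : ℕ} (q d : ℕ) (hq : 0 < q) (hd : 0 < d) {s : ℕ} {wt : Fin m → ℕ}
    {e : Fin m → ℕ} (h : Cnd (q * d) s wt (fun j => q * e j)) : Cnd d s wt e :=
  (cnd_scale q d hq hd).1 h

theorem val_add_neg_val_le {N : ℕ} [NeZero N] (x : ZMod N) : x.val + (-x).val ≤ N := by
  rw [ZMod.neg_val']
  have h1 := Nat.mod_le (N - x.val) N
  have h2 := x.val_lt
  omega

theorem top_W {r N s : ℕ} [NeZero N] (wth : Fin r → ℕ) (h : ∑ i, wth i ≤ 2 * s) :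
    ∀ e : Fin r → ZMod N,
      (∑ i, (e i).val * wth i ≤ N * s ∨ ∑ i, (-e i).val * wth i ≤ N * s) := by
  intro e
  have h1 : ∑ i, (e i).val * wth i + ∑ i, (-e i).val * wth i ≤ N * (2 * s) := by
    rw [← Finset.sum_add_distrib]
    calc ∑ i, ((e i).val * wth i + (-e i).val * wth i) ≤ ∑ i, N * wth i :=
          Finset.sum_le_sum fun i _ => by
            rw [← add_mul]
            exact Nat.mul_le_mul_right _ (val_add_neg_val_le (e i))
      _ = N * ∑ i, wth i := by rw [Finset.mul_sum]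
      _ ≤ N * (2 * s) := Nat.mul_le_mul_left _ h
  have h2 : N * (2 * s) = 2 * (N * s) := by ring
  omega

end Pool.Agent.KTW
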