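import Pool.Agent.TUQ.F11
import Pool.Agent.WLD.W11b

/-!
# Kummer towers: the uniruled threefolds
-/

set_option autoImplicit false

namespace Pool.Agent.KTW

open Polynomial Pool.Agent.TBR Pool.Agent.TUQ Pool.Agent.UQ Pool.Agent.WLD

universe u

section Base

variable {κ : Type u} [Field κ]

theorem trdeg_of_gen {K₀ L : Type u} [Field K₀] [Field L] [Algebra κ K₀] [Algebra κ L]
    [Algebra K₀ L] [IsScalarTower κ K₀ L] (htd : Algebra.trdeg κ K₀ = 2) (a w : L)
    (ha : Transcendental K₀ a) (hgen : IntermediateField.adjoin K₀ {a, w} = ⊤) :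
    Algebra.trdeg κ L < Cardinal.aleph0 ∧ ((4 : ℕ) : Cardinal) ≤ Algebra.trdeg κ L + 1 := by
  have hEss : Algebra.EssFiniteType K₀ L := by
    rw [← IntermediateField.fg_top_iff, ← hgen]
    exact IntermediateField.fg_adjoin_of_finite (Set.toFinite _)
  have hfin : Algebra.trdeg K₀ L < Cardinal.aleph0 := trdeg_lt_aleph0 K₀ L
  have hadd := trdeg_add_eq κ K₀ (A := L)
  rw [htd] at hadd
  have h1 : (1 : Cardinal) ≤ Algebra.trdeg K₀ L := by
    rw [Cardinal.one_le_iff_ne_zero, trdeg_ne_zero_iff]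
    exact ⟨a, ha⟩
  rw [← hadd]
  refine ⟨Cardinal.add_lt_aleph0 Cardinal.natCast_lt_aleph0 hfin, ?_⟩
  calc ((4 : ℕ) : Cardinal) = 2 + 1 + 1 := by norm_num
    _ ≤ 2 + Algebra.trdeg K₀ L + 1 := by gcongr

/-- the threefold `w ^ 6 (1 + a) = f(x, y) a ^ 3` is uniruled -/
theorem six_uni (h2 : (2 : κ) ≠ 0) {K₀ L : Type u} [Field K₀] [Field L] [Algebra κ K₀]
    [Algebra κ L] [Algebra K₀ L] [IsScalarTower κ K₀ L] (x y : K₀)
    (hK₀ : IntermediateField.adjoin κ {x, y} = ⊤) (htd : Algebra.trdeg κ K₀ = 2)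
    (f : MvPolynomial (Fin 2) κ) (a w : L) (ha : Transcendental K₀ a) (hw0 : w ≠ 0)
    (hw : w ^ 6 * (1 + a) = algebraMap K₀ L (MvPolynomial.aeval ![x, y] f) * a ^ 3)
    (hgen : IntermediateField.adjoin K₀ {a, w} = ⊤) (ω : Fin 2 → ℕ) (hω : 0 < ω 0 + ω 1)
    (hf : MvPolynomial.weightedTotalDegree ω f ≤ 6 * (ω 0 + ω 1)) : Uniruled κ L := by
  classical
  have ha0 : a ≠ 0 := by
    rintro rfl
    exact ha isAlgebraic_zero
  obtain ⟨hfin, htr⟩ := trdeg_of_gen htd a w ha hgen
  let H : MvPolynomial (Fin 4) κ := MvPolynomial.rename ![0, 1] f - MvPolynomial.X 2 ^ 3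
  let ξ : Fin 4 → L := ![algebraMap K₀ L x, algebraMap K₀ L y, w ^ 2 / a, w ^ 3 / a]
  have hgen' : IntermediateField.adjoin κ (Set.range ξ) = ⊤ := by
    obtain ⟨E, hE⟩ : ∃ E, E = IntermediateField.adjoin κ (Set.range ξ) := ⟨_, rfl⟩
    rw [← hE]
    have hmem : ∀ i, ξ i ∈ E := fun i => by
      rw [hE]
      exact IntermediateField.subset_adjoin κ _ ⟨i, rfl⟩
    have hK : ∀ b : K₀, algebraMap K₀ L b ∈ E := by
      intro b
      have h1 : (⊤ : IntermediateField κ K₀) ≤ E.comap (IsScalarTower.toAlgHom κ K₀ L) := by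
        rw [← hK₀, IntermediateField.adjoin_le_iff]
        rintro c (rfl | rfl)
        · exact hmem 0
        · exact hmem 1
      exact h1 (IntermediateField.mem_top (x := b))
    have hU : w ^ 2 / a ∈ E := hmem 2
    have hW : w ^ 3 / a ∈ E := hmem 3
    have hw' : w ∈ E := by
      have h1 : w = (w ^ 3 / a) / (w ^ 2 / a) := by
        field_simp
      rw [h1]
      exact div_mem hW hU
    have ha' : a ∈ E := by
      have h1 : a = w ^ 2 / (w ^ 2 / a) := by
        field_simp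
      rw [h1]
      exact div_mem (pow_mem hw' 2) hU
    let E' : IntermediateField K₀ L :=
      { E.toSubfield with
        algebraMap_mem' := hK }
    have h1 : (⊤ : IntermediateField K₀ L) ≤ E' := by
      rw [← hgen, IntermediateField.adjoin_le_iff]
      rintro c (rfl | rfl)
      · exact ha'
      · exact hw'
    rw [eq_top_iff]
    intro b _
    exact h1 (IntermediateField.mem_top (x := b))
  have hr : MvPolynomial.aeval ξ (MvPolynomial.rename ![0, 1] f : MvPolynomial (Fin 4) κ) =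
      algebraMap K₀ L (MvPolynomial.aeval ![x, y] f) := by
    rw [MvPolynomial.aeval_rename]
    have h1 := MvPolynomial.aeval_algebraMap_apply (A := K₀) (B := L) ![x, y] f
    rw [← h1]
    congr 2
    ext i
    fin_cases i <;> rfl
  refine uniruled_square h2 ξ hgen' hfin htr 3 H ?_ ?_
    ![ω 0, ω 1, 2 * (ω 0 + ω 1), 3 * (ω 0 + ω 1)] ?_ ?_ ?_
  · intro h
    rcases Finset.mem_union.1 (MvPolynomial.vars_sub_subset _ h) with h | h
    · have := MvPolynomial.vars_rename (![0, 1] : Fin 2 → Fin 4) f h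
      rw [Finset.mem_image] at this
      obtain ⟨j, -, hj⟩ := this
      fin_cases j <;> simp at hj
    · have := MvPolynomial.vars_pow _ 3 h
      rw [MvPolynomial.vars_X] at this
      simp at this
  · rw [map_sub, map_pow, MvPolynomial.aeval_X, hr]
    show (w ^ 3 / a) ^ 2 = algebraMap K₀ L (MvPolynomial.aeval ![x, y] f) - (w ^ 2 / a) ^ 3
    have h1 : algebraMap K₀ L (MvPolynomial.aeval ![x, y] f) = w ^ 6 * (1 + a) / a ^ 3 := by
      rw [hw]
      field_simp
    rw [h1]
    field_simp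
    ring
  · show 0 < 3 * (ω 0 + ω 1)
    omega
  · refine wtd_sub _ _ _ _ (wtd_rename _ _ _ ?_) ((wtd_X_pow _ 2 3).trans ?_)
    · show MvPolynomial.weightedTotalDegree ![ω 0, ω 1] f ≤ 2 * (3 * (ω 0 + ω 1))
      rw [vec2_eq]
      omega
    · show 3 * (2 * (ω 0 + ω 1)) ≤ 2 * (3 * (ω 0 + ω 1))
      omega
  · rw [Fin.sum_univ_four]
    show 2 * (3 * (ω 0 + ω 1)) ≤ ω 0 + ω 1 + 2 * (ω 0 + ω 1) + 3 * (ω 0 + ω 1)
    omega

theorem wtd_rename3 (w : Fin 3 → ℕ) (p : MvPolynomial (Fin 2) κ) (D : ℕ)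
    (hp : MvPolynomial.weightedTotalDegree ![w 0, w 1] p ≤ D) :
    MvPolynomial.weightedTotalDegree w (MvPolynomial.rename (![0, 1] : Fin 2 → Fin 3) p) ≤ D := by
  classical
  rw [wtd_le_iff] at *
  intro d hd
  have hinj : Function.Injective (![0, 1] : Fin 2 → Fin 3) := by decide
  rw [MvPolynomial.support_rename_of_injective hinj, Finset.mem_image] at hd
  obtain ⟨e, he, rfl⟩ := hd
  refine le_trans (le_of_eq ?_) (hp e he)
  rw [Finsupp.weight_apply, Finsupp.weight_apply, Finsupp.sum_mapDomain_index (by simp)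
    (by intros; simp [add_mul])]
  rw [Finsupp.sum_fintype _ _ (by simp), Finsupp.sum_fintype _ _ (by simp)]
  refine Finset.sum_congr rfl (fun i _ => ?_)
  fin_cases i <;> simp

/-- the surface `z ^ 2 = f(x, y)` is uniruled -/
theorem two_uni (h2 : (2 : κ) ≠ 0) {L : Type u} [Field L] [Algebra κ L] (x y z : L)
    (hgen : IntermediateField.adjoin κ {x, y, z} = ⊤) (htd : Algebra.trdeg κ L = 2)
    (f : MvPolynomial (Fin 2) κ) (hz : z ^ 2 = MvPolynomial.aeval ![x, y] f)
    (ω : Fin 2 → ℕ) (hω : 0 < ω 0 + ω 1)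
    (hf : MvPolynomial.weightedTotalDegree ω f ≤ 2 * (ω 0 + ω 1)) : Uniruled κ L := by
  classical
  let ξ : Fin 3 → L := ![x, y, z]
  have hgen' : IntermediateField.adjoin κ (Set.range ξ) = ⊤ := by
    have h1 : Set.range ξ = {x, y, z} := by
      ext b
      constructor
      · rintro ⟨i, rfl⟩
        fin_cases i
        · exact Or.inl rfl
        · exact Or.inr (Or.inl rfl)
        · exact Or.inr (Or.inr rfl)
      · rintro (rfl | rfl | rfl)
        · exact ⟨0, rfl⟩
        · exact ⟨1, rfl⟩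
        · exact ⟨2, rfl⟩
    rw [h1, hgen]
  refine uniruled_square h2 ξ hgen' ?_ ?_ 2 (MvPolynomial.rename ![0, 1] f) ?_ ?_
    ![ω 0, ω 1, ω 0 + ω 1] ?_ ?_ ?_
  · rw [htd]
    exact Cardinal.natCast_lt_aleph0 (n := 2)
  · rw [htd]
    norm_num
  · intro h
    have := MvPolynomial.vars_rename (![0, 1] : Fin 2 → Fin 3) f h
    rw [Finset.mem_image] at this
    obtain ⟨j, -, hj⟩ := this
    fin_cases j <;> simp at hj
  · show z ^ 2 = _
    rw [hz, MvPolynomial.aeval_rename]
    congr 2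
    ext i
    fin_cases i <;> rfl
  · exact hω
  · refine wtd_rename3 _ _ _ ?_
    show MvPolynomial.weightedTotalDegree ![ω 0, ω 1] f ≤ 2 * (ω 0 + ω 1)
    rw [vec2_eq]
    exact hf
  · rw [Fin.sum_univ_three]
    show 2 * (ω 0 + ω 1) ≤ ω 0 + ω 1 + (ω 0 + ω 1)
    omega

/-- existence of the threefold `w ^ 6 (1 + a) = F a ^ 3` -/
theorem six_exists {K₀ : Type u} [Field K₀] [Algebra κ K₀] (F : K₀) (hF : F ≠ 0) :
    ∃ (L : Type u) (_ : Field L) (_ : Algebra κ L) (_ : Algebra K₀ L) (_ : IsScalarTower κ K₀ L)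
      (a w : L), Transcendental K₀ a ∧ w ≠ 0 ∧ w ^ 6 * (1 + a) = algebraMap K₀ L F * a ^ 3 ∧
        IntermediateField.adjoin K₀ {a, w} = ⊤ := by
  let Ω := AlgebraicClosure (RatFunc K₀)
  let a : Ω := algebraMap (RatFunc K₀) Ω RatFunc.X
  have ha : Transcendental K₀ a := by
    have h1 : Transcendental K₀ (RatFunc.X : RatFunc K₀) := RatFunc.transcendental_X
    exact (transcendental_algebraMap_iff (algebraMap (RatFunc K₀) Ω).injective).2 h1
  have ha0 : a ≠ 0 := by
    intro h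
    apply ha
    rw [h]
    exact isAlgebraic_zero
  have h1a : (1 + a : Ω) ≠ 0 := by
    intro h
    apply ha
    refine ⟨1 + X, ?_, ?_⟩
    · intro h3
      have h4 := congrArg (fun p => p.coeff 1) h3
      simp [coeff_one] at h4
    · rw [map_add, map_one, aeval_X, h]
  obtain ⟨w, hw⟩ := IsAlgClosed.exists_pow_nat_eq (algebraMap K₀ Ω F * a ^ 3 / (1 + a))
    (show 0 < 6 by norm_num)
  have hF' : algebraMap K₀ Ω F ≠ 0 := (_root_.map_ne_zero _).2 hF
  have hw0 : w ≠ 0 := by
    rintro rfl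
    rw [zero_pow (by norm_num)] at hw
    exact div_ne_zero (mul_ne_zero hF' (pow_ne_zero 3 ha0)) h1a hw.symm
  let L := IntermediateField.adjoin K₀ {a, w}
  have haL : a ∈ L := IntermediateField.subset_adjoin _ _ (Or.inl rfl)
  have hwL : w ∈ L := IntermediateField.subset_adjoin _ _ (Or.inr rfl)
  refine ⟨L, inferInstance, ((algebraMap K₀ L).comp (algebraMap κ K₀)).toAlgebra, inferInstance,
    ?_, ⟨a, haL⟩, ⟨w, hwL⟩, ?_, ?_, ?_, ?_⟩
  · let _ : Algebra κ L := ((algebraMap K₀ L).comp (algebraMap κ K₀)).toAlgebra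
    exact IsScalarTower.of_algebraMap_eq (fun _ => rfl)
  · have := (transcendental_algebraMap_iff (R := K₀) (S := L) (A := Ω) (a := ⟨a, haL⟩)
      (algebraMap L Ω).injective).1 ha
    exact this
  · exact fun h => hw0 (congrArg Subtype.val h)
  · apply Subtype.ext
    show w ^ 6 * (1 + a) = algebraMap K₀ Ω F * a ^ 3
    rw [hw, div_mul_cancel₀ _ h1a]
  · apply IntermediateField.lift_injective L
    rw [IntermediateField.lift_adjoin, IntermediateField.lift_top, Set.image_pair]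

end Base

section Tower

variable {k M : Type u} [Field k] [Field M] [Algebra k M]

/-- `K₀ = E(x_0, x_1)`, `E` finitely generated and algebraic over `k`, as a field over `E` -/
theorem base_facts (K₀ : IntermediateField k M) (htd : Algebra.trdeg k M = 2)
    (hal : ∀ y : M, IsAlgebraic K₀ y) (E : IntermediateField k M)
    (hEtd : Algebra.trdeg k E = 0) (x : Fin 2 → M)
    (hK₀ : K₀ = E ⊔ IntermediateField.adjoin k (Set.range x)) (hle : E ≤ K₀)
    (hxK : ∀ i, x i ∈ K₀) [Algebra E K₀] [IsScalarTower k E K₀]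
    (hE : ∀ e : E, algebraMap E K₀ e = IntermediateField.inclusion hle e) :
    Algebra.trdeg E K₀ = 2 ∧
      IntermediateField.adjoin E {(⟨x 0, hxK 0⟩ : K₀), ⟨x 1, hxK 1⟩} = ⊤ := by
  constructor
  · have h1 : Algebra.IsAlgebraic K₀ M := ⟨hal⟩
    have h3 := trdeg_add_eq k K₀ (A := M)
    rw [trdeg_eq_zero_iff.2 h1, add_zero, htd] at h3
    have h5 := trdeg_add_eq k E (A := K₀)
    rwa [h3, hEtd, zero_add] at h5
  · rw [eq_top_iff]
    intro b _
    obtain ⟨S, hS⟩ : ∃ S : Set K₀, S = {(⟨x 0, hxK 0⟩ : K₀), ⟨x 1, hxK 1⟩} := ⟨_, rfl⟩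
    rw [← hS]
    let N' : IntermediateField k M :=
      ((IntermediateField.adjoin E S).restrictScalars k).map K₀.val
    have hEN : E ≤ N' := fun c hc => ⟨⟨c, hle hc⟩, by
      have h1 := (IntermediateField.adjoin E S).algebraMap_mem ⟨c, hc⟩
      rw [hE] at h1
      exact h1, rfl⟩
    have hx : IntermediateField.adjoin k (Set.range x) ≤ N' := by
      rw [IntermediateField.adjoin_le_iff]
      rintro _ ⟨i, rfl⟩
      refine ⟨⟨x i, hxK i⟩, IntermediateField.subset_adjoin E _ ?_, rfl⟩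
      rw [hS]
      fin_cases i
      · exact Or.inl rfl
      · exact Or.inr rfl
    have hb : (b : M) ∈ E ⊔ IntermediateField.adjoin k (Set.range x) := by
      rw [← hK₀]
      exact b.2
    obtain ⟨c, hc, hcb⟩ := (sup_le hEN hx) hb
    have e : c = b := Subtype.ext hcb
    rw [← e]
    exact hc

theorem uni_34 (K₀ : IntermediateField k M) (htd : Algebra.trdeg k M = 2)
    (hal : ∀ y : M, IsAlgebraic K₀ y) (E : IntermediateField k M) (hEfg : E.FG)
    (hEtd : Algebra.trdeg k E = 0) (x : Fin 2 → M)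
    (hK₀ : K₀ = E ⊔ IntermediateField.adjoin k (Set.range x)) (h2 : (2 : k) ≠ 0)
    (f : MvPolynomial (Fin 2) E) (hf0 : MvPolynomial.aeval x f ≠ 0) (ω : Fin 2 → ℕ)
    (hω : 0 < ω 0 + ω 1) (F : K₀) (hF : (F : M) = MvPolynomial.aeval x f)
    (L : Type u) [Field L] [Algebra k L] [Algebra K₀ L] [IsScalarTower k K₀ L] (a w : L)
    (ha : Transcendental K₀ a) (hgen : IntermediateField.adjoin K₀ {a, w} = ⊤)
    (d : ℕ) (hd : d = 3 ∨ d = 4)
    (hf : MvPolynomial.weightedTotalDegree ω f ≤ d * (ω 0 + ω 1))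
    (hw : w ^ d * (1 + a ^ 2) = algebraMap K₀ L F) : Uniruled k L := by
  have hle : E ≤ K₀ := by
    rw [hK₀]
    exact le_sup_left
  have hxK : ∀ i, x i ∈ K₀ := fun i => by
    rw [hK₀]
    exact (le_sup_right : IntermediateField.adjoin k (Set.range x) ≤ _)
      (IntermediateField.subset_adjoin _ _ ⟨i, rfl⟩)
  let ι : E →ₐ[k] K₀ := IntermediateField.inclusion hle
  let algE : Algebra E K₀ := ι.toRingHom.toAlgebra
  let algL : Algebra E L := ((algebraMap K₀ L).comp ι.toRingHom).toAlgebra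
  have tow1 : IsScalarTower E K₀ L := IsScalarTower.of_algebraMap_eq (fun _ => rfl)
  have tow2 : IsScalarTower k E K₀ := IsScalarTower.of_algebraMap_eq (fun b => (ι.commutes b).symm)
  have tow3 : IsScalarTower k E L := IsScalarTower.of_algebraMap_eq (fun b => by
    rw [IsScalarTower.algebraMap_apply k K₀ L, ← ι.commutes b]
    rfl)
  have tow4 : IsScalarTower E K₀ M := IsScalarTower.of_algebraMap_eq (fun _ => rfl)
  obtain ⟨h3, h4⟩ := base_facts K₀ htd hal E hEtd x hK₀ hle hxK (fun _ => rfl)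
  have hval : ∀ P : MvPolynomial (Fin 2) E,
      ((MvPolynomial.aeval ![(⟨x 0, hxK 0⟩ : K₀), ⟨x 1, hxK 1⟩] P : K₀) : M) =
        MvPolynomial.aeval x P := by
    intro P
    have h1 := MvPolynomial.aeval_algebraMap_apply (A := K₀) (B := M)
      ![(⟨x 0, hxK 0⟩ : K₀), ⟨x 1, hxK 1⟩] P
    show algebraMap K₀ M (MvPolynomial.aeval ![(⟨x 0, hxK 0⟩ : K₀), ⟨x 1, hxK 1⟩] P) = _
    rw [← h1]
    congr 2
    ext i
    fin_cases i <;> rfl
  have hFe : F = MvPolynomial.aeval ![(⟨x 0, hxK 0⟩ : K₀), ⟨x 1, hxK 1⟩] f := by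
    apply Subtype.ext
    rw [hval, hF]
  have hEfg' : (⊤ : IntermediateField k E).FG := by
    rw [IntermediateField.fg_top_iff]
    exact IntermediateField.essFiniteType_iff.2 hEfg
  have h2' : (2 : E) ≠ 0 := by
    intro h
    apply h2
    apply (algebraMap k E).injective
    rw [map_ofNat, map_zero, h]
  have hd0 : d ≠ 0 := by omega
  have hw0 : w ≠ 0 := by
    rintro rfl
    rw [zero_pow hd0, zero_mul] at hw
    have h1 : F = 0 := (algebraMap K₀ L).injective (by rw [← hw, map_zero])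
    apply hf0
    rw [← hF, h1]
    rfl
  refine Uniruled.tower (E := E) hEfg' (Pool.Agent.TUQ.fam_uni (k := E) h2' _ _ h4 h3 d f 1 ?_
    a w ha hw0 ?_ hgen (ω 0) (ω 1) (ω 0 + ω 1) (2 * (ω 0 + ω 1)) ?_ (by omega) (by omega))
  · rw [map_one]
    exact one_ne_zero
  · rw [map_one, map_one, one_pow, mul_one, hw, hFe]
  · unfold WtC
    rw [vec2_eq, wtd_one]
    rcases hd with rfl | rfl
    · right
      exact ⟨⟨1, rfl⟩, by omega, by omega⟩
    · left
      exact ⟨⟨2, rfl⟩, by omega, by omega⟩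

theorem uni_6 (K₀ : IntermediateField k M) (htd : Algebra.trdeg k M = 2)
    (hal : ∀ y : M, IsAlgebraic K₀ y) (E : IntermediateField k M) (hEfg : E.FG)
    (hEtd : Algebra.trdeg k E = 0) (x : Fin 2 → M)
    (hK₀ : K₀ = E ⊔ IntermediateField.adjoin k (Set.range x)) (h2 : (2 : k) ≠ 0)
    (f : MvPolynomial (Fin 2) E) (hf0 : MvPolynomial.aeval x f ≠ 0) (ω : Fin 2 → ℕ)
    (hω : 0 < ω 0 + ω 1) (F : K₀) (hF : (F : M) = MvPolynomial.aeval x f)
    (L : Type u) [Field L] [Algebra k L] [Algebra K₀ L] [IsScalarTower k K₀ L] (a w : L)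
    (ha : Transcendental K₀ a) (hgen : IntermediateField.adjoin K₀ {a, w} = ⊤)
    (hf : MvPolynomial.weightedTotalDegree ω f ≤ 6 * (ω 0 + ω 1))
    (hw : w ^ 6 * (1 + a) = algebraMap K₀ L F * a ^ 3) : Uniruled k L := by
  have hle : E ≤ K₀ := by
    rw [hK₀]
    exact le_sup_left
  have hxK : ∀ i, x i ∈ K₀ := fun i => by
    rw [hK₀]
    exact (le_sup_right : IntermediateField.adjoin k (Set.range x) ≤ _)
      (IntermediateField.subset_adjoin _ _ ⟨i, rfl⟩)
  let ι : E →ₐ[k] K₀ := IntermediateField.inclusion hle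
  let algE : Algebra E K₀ := ι.toRingHom.toAlgebra
  let algL : Algebra E L := ((algebraMap K₀ L).comp ι.toRingHom).toAlgebra
  have tow1 : IsScalarTower E K₀ L := IsScalarTower.of_algebraMap_eq (fun _ => rfl)
  have tow2 : IsScalarTower k E K₀ := IsScalarTower.of_algebraMap_eq (fun b => (ι.commutes b).symm)
  have tow3 : IsScalarTower k E L := IsScalarTower.of_algebraMap_eq (fun b => by
    rw [IsScalarTower.algebraMap_apply k K₀ L, ← ι.commutes b]
    rfl)
  have tow4 : IsScalarTower E K₀ M := IsScalarTower.of_algebraMap_eq (fun _ => rfl)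
  obtain ⟨h3, h4⟩ := base_facts K₀ htd hal E hEtd x hK₀ hle hxK (fun _ => rfl)
  have hval : ∀ P : MvPolynomial (Fin 2) E,
      ((MvPolynomial.aeval ![(⟨x 0, hxK 0⟩ : K₀), ⟨x 1, hxK 1⟩] P : K₀) : M) =
        MvPolynomial.aeval x P := by
    intro P
    have h1 := MvPolynomial.aeval_algebraMap_apply (A := K₀) (B := M)
      ![(⟨x 0, hxK 0⟩ : K₀), ⟨x 1, hxK 1⟩] P
    show algebraMap K₀ M (MvPolynomial.aeval ![(⟨x 0, hxK 0⟩ : K₀), ⟨x 1, hxK 1⟩] P) = _
    rw [← h1]
    congr 2
    ext i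
    fin_cases i <;> rfl
  have hFe : F = MvPolynomial.aeval ![(⟨x 0, hxK 0⟩ : K₀), ⟨x 1, hxK 1⟩] f := by
    apply Subtype.ext
    rw [hval, hF]
  have hEfg' : (⊤ : IntermediateField k E).FG := by
    rw [IntermediateField.fg_top_iff]
    exact IntermediateField.essFiniteType_iff.2 hEfg
  have h2' : (2 : E) ≠ 0 := by
    intro h
    apply h2
    apply (algebraMap k E).injective
    rw [map_ofNat, map_zero, h]
  have ha0 : a ≠ 0 := by
    rintro rfl
    exact ha isAlgebraic_zero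
  have hw0 : w ≠ 0 := by
    rintro rfl
    rw [zero_pow (by norm_num), zero_mul] at hw
    rcases mul_eq_zero.1 hw.symm with h | h
    · have h1 : F = 0 := (algebraMap K₀ L).injective (by rw [h, map_zero])
      apply hf0
      rw [← hF, h1]
      rfl
    · exact pow_ne_zero 3 ha0 h
  refine Uniruled.tower (E := E) hEfg' (six_uni (κ := E) h2' _ _ h4 h3 f a w ha hw0 ?_ hgen ω hω hf)
  rw [hw, hFe]

theorem uni_2 (K₀ : IntermediateField k M) (htd : Algebra.trdeg k M = 2)
    (hal : ∀ y : M, IsAlgebraic K₀ y) (E : IntermediateField k M) (hEfg : E.FG)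
    (hEtd : Algebra.trdeg k E = 0) (x : Fin 2 → M)
    (hK₀ : K₀ = E ⊔ IntermediateField.adjoin k (Set.range x)) (h2 : (2 : k) ≠ 0)
    (f : MvPolynomial (Fin 2) E) (ω : Fin 2 → ℕ) (hω : 0 < ω 0 + ω 1) (Z : M)
    (hZ : Z ^ 2 = MvPolynomial.aeval x f)
    (hf : MvPolynomial.weightedTotalDegree ω f ≤ 2 * (ω 0 + ω 1)) :
    Uniruled k (K₀ ⊔ IntermediateField.adjoin k {Z} : IntermediateField k M) := by
  obtain ⟨K, hK⟩ : ∃ K, K = K₀ ⊔ IntermediateField.adjoin k {Z} := ⟨_, rfl⟩
  rw [← hK]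
  have hle₀ : K₀ ≤ K := by
    rw [hK]
    exact le_sup_left
  have hle : E ≤ K := by
    refine le_trans ?_ hle₀
    rw [hK₀]
    exact le_sup_left
  have hxK : ∀ i, x i ∈ K := fun i => hle₀ (by
    rw [hK₀]
    exact (le_sup_right : IntermediateField.adjoin k (Set.range x) ≤ _)
      (IntermediateField.subset_adjoin _ _ ⟨i, rfl⟩))
  have hZK : Z ∈ K := by
    rw [hK]
    exact (le_sup_right : IntermediateField.adjoin k {Z} ≤ _)
      (IntermediateField.subset_adjoin _ _ rfl)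
  let ι : E →ₐ[k] K := IntermediateField.inclusion hle
  let algE : Algebra E K := ι.toRingHom.toAlgebra
  have tow2 : IsScalarTower k E K := IsScalarTower.of_algebraMap_eq (fun b => (ι.commutes b).symm)
  have tow4 : IsScalarTower E K M := IsScalarTower.of_algebraMap_eq (fun _ => rfl)
  have hal' : Algebra.IsAlgebraic K M := ⟨fun y => by
    have h1 := hal y
    let algK : Algebra K₀ K := (IntermediateField.inclusion hle₀).toRingHom.toAlgebra
    have tow5 : IsScalarTower K₀ K M := IsScalarTower.of_algebraMap_eq (fun _ => rfl)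
    exact h1.extendScalars (algebraMap K₀ K).injective⟩
  have htd' : Algebra.trdeg E K = 2 := by
    have h3 := trdeg_add_eq k K (A := M)
    rw [trdeg_eq_zero_iff.2 hal', add_zero, htd] at h3
    have h5 := trdeg_add_eq k E (A := K)
    rwa [h3, hEtd, zero_add] at h5
  have hgen : IntermediateField.adjoin E
      {(⟨x 0, hxK 0⟩ : K), ⟨x 1, hxK 1⟩, ⟨Z, hZK⟩} = ⊤ := by
    rw [eq_top_iff]
    intro b _
    obtain ⟨S, hS⟩ : ∃ S : Set K, S = {(⟨x 0, hxK 0⟩ : K), ⟨x 1, hxK 1⟩, ⟨Z, hZK⟩} := ⟨_, rfl⟩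
    rw [← hS]
    let N' : IntermediateField k M :=
      ((IntermediateField.adjoin E S).restrictScalars k).map K.val
    have hEN : E ≤ N' := fun c hc => ⟨⟨c, hle hc⟩,
      (IntermediateField.adjoin E S).algebraMap_mem ⟨c, hc⟩, rfl⟩
    have hx : IntermediateField.adjoin k (Set.range x) ≤ N' := by
      rw [IntermediateField.adjoin_le_iff]
      rintro _ ⟨i, rfl⟩
      refine ⟨⟨x i, hxK i⟩, IntermediateField.subset_adjoin E _ ?_, rfl⟩
      rw [hS]
      fin_cases i
      · exact Or.inl rfl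
      · exact Or.inr (Or.inl rfl)
    have hZN : IntermediateField.adjoin k {Z} ≤ N' := by
      rw [IntermediateField.adjoin_le_iff, Set.singleton_subset_iff]
      refine ⟨⟨Z, hZK⟩, IntermediateField.subset_adjoin E _ ?_, rfl⟩
      rw [hS]
      exact Or.inr (Or.inr rfl)
    have hb : (b : M) ∈ (E ⊔ IntermediateField.adjoin k (Set.range x)) ⊔
        IntermediateField.adjoin k {Z} := by
      rw [← hK₀, ← hK]
      exact b.2
    obtain ⟨c, hc, hcb⟩ := (sup_le (sup_le hEN hx) hZN) hb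
    have e : c = b := Subtype.ext hcb
    rw [← e]
    exact hc
  have hEfg' : (⊤ : IntermediateField k E).FG := by
    rw [IntermediateField.fg_top_iff]
    exact IntermediateField.essFiniteType_iff.2 hEfg
  have h2' : (2 : E) ≠ 0 := by
    intro h
    apply h2
    apply (algebraMap k E).injective
    rw [map_ofNat, map_zero, h]
  refine Uniruled.tower (E := E) hEfg' (two_uni (κ := E) h2' _ _ _ hgen htd' f ?_ ω hω hf)
  apply Subtype.ext
  show Z ^ 2 = algebraMap K M (MvPolynomial.aeval ![(⟨x 0, hxK 0⟩ : K), ⟨x 1, hxK 1⟩] f)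
  have h1 := MvPolynomial.aeval_algebraMap_apply (A := K) (B := M)
    ![(⟨x 0, hxK 0⟩ : K), ⟨x 1, hxK 1⟩] f
  rw [← h1, hZ]
  congr 2
  ext i
  fin_cases i <;> rfl

end Tower

section Orders

variable {k M : Type u} [Field k] [Field M] [Algebra k M]

theorem bc_34 [IsAlgClosed M] (d : ℕ) (hd0 : (d : k) ≠ 0) (h2 : (2 : k) ≠ 0) :
    Bc k M d (1 + X ^ 2) 1 ∧ ∀ e ∈ bds k M (1 + X ^ 2) 1, e = 1 ∨ e = 2 := by
  classical
  have h2M : (2 : M) ≠ 0 := by
    intro h
    apply h2
    apply (algebraMap k M).injective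
    rw [map_ofNat, map_zero, h]
  have hP : ((1 + X ^ 2) * 1 : k[X]).map (algebraMap k M) = 1 + X ^ 2 := by
    rw [mul_one, Polynomial.map_add, Polynomial.map_one, Polynomial.map_pow, map_X]
  have hdeg : (1 + X ^ 2 : k[X]).natDegree = 2 := by compute_degree!
  have hsep : ∀ c : M, (1 + X ^ 2 : M[X]).IsRoot c → (1 + X ^ 2 : M[X]).rootMultiplicity c = 1 := by
    intro c hc
    have h0 : (1 + X ^ 2 : M[X]) ≠ 0 := by
      intro h
      have h4 := congrArg (fun p => p.coeff 2) h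
      simp [coeff_one] at h4
    have hc' : 1 + c ^ 2 = 0 := by
      have := hc
      rw [IsRoot.def, eval_add, eval_one, eval_pow, eval_X] at this
      exact this
    refine le_antisymm ?_ ((rootMultiplicity_pos h0).2 hc)
    by_contra hlt
    push Not at hlt
    have h3 := (one_lt_rootMultiplicity_iff_isRoot h0).1 hlt
    have h4 := h3.2
    rw [IsRoot.def, derivative_add, derivative_one, derivative_X_pow, zero_add, eval_mul,
      eval_C, eval_pow, eval_X] at h4
    have h5 : c ≠ 0 := by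
      rintro rfl
      rw [zero_pow (by norm_num), add_zero] at hc'
      exact one_ne_zero hc'
    rcases mul_eq_zero.1 h4 with h6 | h6
    · exact h2M (by exact_mod_cast h6)
    · exact pow_ne_zero _ h5 h6
  have hb : ∀ e ∈ bds k M (1 + X ^ 2) 1, e = 1 ∨ e = 2 := by
    intro e he
    unfold bds at he
    rcases Finset.mem_insert.1 he with h | h
    · right
      rw [h, hdeg, natDegree_one]
      rfl
    · left
      obtain ⟨c, hc, rfl⟩ := Finset.mem_image.1 h
      have h1 := (mem_roots'.1 (Multiset.mem_toFinset.1 hc)).2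
      rw [hP] at h1 ⊢
      exact hsep c h1
  refine ⟨⟨hd0, isCoprime_one_right, ?_, ?_⟩, hb⟩
  · intro e he
    rcases hb e he with rfl | rfl
    · rw [Nat.cast_one]
      exact one_ne_zero
    · exact_mod_cast h2
  · obtain ⟨c, hc⟩ := IsAlgClosed.exists_pow_nat_eq (-1 : M) (show 0 < 2 by norm_num)
    have hc0 : c ≠ 0 := by
      rintro rfl
      rw [zero_pow (by norm_num)] at hc
      exact one_ne_zero (neg_eq_zero.1 hc.symm)
    refine ⟨c, -c, ?_, ?_, ?_⟩
    · intro h
      have h1 : 2 * c = 0 := by linear_combination h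
      rcases mul_eq_zero.1 h1 with h3 | h3
      · exact h2M h3
      · exact hc0 h3
    · rw [mul_one, map_add, map_one, map_pow, aeval_X, hc]
      ring
    · rw [mul_one, map_add, map_one, map_pow, aeval_X, neg_sq, hc]
      ring

theorem bc_6 (h2 : (2 : k) ≠ 0) (h3 : (3 : k) ≠ 0) :
    Bc k M 6 (1 + X) (X ^ 3) ∧
      ∀ e ∈ bds k M (1 + X) (X ^ 3), e = 1 ∨ e = 2 ∨ e = 3 := by
  classical
  have hP : ((1 + X) * X ^ 3 : k[X]).map (algebraMap k M) = (X - C (-1)) * (X - C 0) ^ 3 := by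
    rw [Polynomial.map_mul, Polynomial.map_add, Polynomial.map_one, Polynomial.map_pow, map_X,
      C_neg, C_1, C_0, sub_neg_eq_add, sub_zero, add_comm]
  have h0 : ((X - C (-1)) * (X - C 0) ^ 3 : M[X]) ≠ 0 :=
    mul_ne_zero (X_sub_C_ne_zero _) (pow_ne_zero 3 (X_sub_C_ne_zero _))
  have hne : (-1 : M) ≠ 0 := neg_ne_zero.2 one_ne_zero
  have hroot : ∀ c : M, ((X - C (-1)) * (X - C 0) ^ 3 : M[X]).IsRoot c →
      ((X - C (-1)) * (X - C 0) ^ 3 : M[X]).rootMultiplicity c = 1 ∨
        ((X - C (-1)) * (X - C 0) ^ 3 : M[X]).rootMultiplicity c = 3 := by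
    intro c hc
    rw [rootMultiplicity_mul h0, rootMultiplicity_X_sub_C]
    have h4 : (c : M) = -1 ∨ c = 0 := by
      rw [IsRoot.def, eval_mul, eval_pow, eval_sub, eval_sub, eval_X, eval_C, eval_C] at hc
      rcases mul_eq_zero.1 hc with h | h
      · exact Or.inl (sub_eq_zero.1 h)
      · exact Or.inr (by
          have := pow_eq_zero_iff (n := 3) (by norm_num) |>.1 h
          exact sub_eq_zero.1 this)
    rcases h4 with rfl | rfl
    · left
      rw [if_pos rfl, rootMultiplicity_eq_zero]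
      rw [IsRoot.def, eval_pow, eval_sub, eval_X, eval_C, sub_zero]
      exact pow_ne_zero 3 hne
    · right
      rw [if_neg (fun h => hne h.symm), zero_add, rootMultiplicity_X_sub_C_pow]
  have hd1 : (1 + X : k[X]).natDegree = 1 := by compute_degree!
  have hb : ∀ e ∈ bds k M (1 + X) (X ^ 3), e = 1 ∨ e = 2 ∨ e = 3 := by
    intro e he
    unfold bds at he
    rcases Finset.mem_insert.1 he with h | h
    · right
      left
      rw [h, hd1, natDegree_X_pow]
      rfl
    · obtain ⟨c, hc, rfl⟩ := Finset.mem_image.1 h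
      have h1 := (mem_roots'.1 (Multiset.mem_toFinset.1 hc)).2
      rw [hP] at h1 ⊢
      rcases hroot c h1 with h5 | h5
      · exact Or.inl h5
      · exact Or.inr (Or.inr h5)
  have h6 : ((6 : ℕ) : k) ≠ 0 := by
    have : ((6 : ℕ) : k) = 2 * 3 := by norm_num
    rw [this]
    exact mul_ne_zero h2 h3
  refine ⟨⟨h6, ?_, ?_, ?_⟩, hb⟩
  · refine IsCoprime.pow_right ?_
    exact ⟨1, -1, by ring⟩
  · intro e he
    rcases hb e he with rfl | rfl | rfl
    · rw [Nat.cast_one]
      exact one_ne_zero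
    · exact_mod_cast h2
    · exact_mod_cast h3
  · refine ⟨-1, 0, hne, ?_, ?_⟩
    · rw [map_mul, map_add, map_one, aeval_X]
      ring
    · rw [map_mul, map_pow, aeval_X]
      ring

end Orders

end Pool.Agent.KTW
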