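import Pool.Agent.ADT.C2
import Pool.Agent.TUQ.F10
import Pool.Agent.KTW.KB

/-!
# Kummer towers: the cyclic case
-/

set_option autoImplicit false

namespace Pool.Agent.KTW

open Polynomial Pool.Agent.TBR Pool.Agent.TUQ Pool.Agent.UQ Pool.Agent.WLD

universe u

section

variable {k M : Type u} [Field k] [Field M] [Algebra k M]

/-- the theorem on uniruled quotients, if the group `V_ℓ` of the intermediate cyclic covers is
known -/
theorem emt_final [IsAlgClosed M] (K₀ : IntermediateField k M) (hfg : K₀.FG)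
    (htd : Algebra.trdeg k M = 2) (hal : ∀ x : M, IsAlgebraic K₀ x) (N : ℕ) (B₁ B₂ : k[X])
    (hb : Bc k M N B₁ B₂) (z : M) (z0 : z ≠ 0) (zN : z ^ N ∈ K₀)
    (irr : Irreducible (X ^ N - C (⟨z ^ N, zN⟩ : K₀)))
    (L : Type u) [Field L] [Algebra k L] [Algebra K₀ L] [IsScalarTower k K₀ L] (a w : L)
    (ha : Transcendental K₀ a)
    (hw : w ^ N * aeval a B₁ = algebraMap K₀ L ⟨z ^ N, zN⟩ * aeval a B₂)
    (hgen : IntermediateField.adjoin K₀ {a, w} = ⊤) (hL : Uniruled k L)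
    (ih : ∀ e ∈ bds k M B₁ B₂, Emt (K₀ ⊔ IntermediateField.adjoin k {z ^ (N / Nat.gcd N e)})) :
    Emt (K₀ ⊔ IntermediateField.adjoin k {z}) := by
  obtain ⟨n, L', h1, h2⟩ := final2 (fun Ω _ _ => blockR k Ω) K₀ hfg htd hal N B₁ B₂ hb z z0 zN
    irr L a w ha hw hgen hL
  refine emt_of_inj (K' := K₀ ⊔ IntermediateField.adjoin k {z})
    (fun ℓ _ => ⟨MonoidHom.id _, Function.injective_id⟩) L' h2 fun j => ?_
  rcases (h1 j).1 with h3 | ⟨e, he, h3⟩
  · exact ADT.emt_two h3 (h1 j).2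
  · rw [h3]
    exact ih e he

/-- the cyclic case -/
theorem emt_cyc [IsAlgClosed M] (htd : Algebra.trdeg k M = 2) (E : IntermediateField k M)
    (hEfg : E.FG) (hEtd : Algebra.trdeg k E = 0) (x : Fin 2 → M) (K₀ : IntermediateField k M)
    (hK₀ : K₀ = E ⊔ IntermediateField.adjoin k (Set.range x)) (hal : ∀ y : M, IsAlgebraic K₀ y)
    (h2 : (2 : k) ≠ 0) (d : ℕ) (hd : d = 2 ∨ d = 3 ∨ d = 4 ∨ d = 6) (hdk : (d : k) ≠ 0)
    (f : MvPolynomial (Fin 2) E) (hf0 : MvPolynomial.aeval x f ≠ 0) (ω : Fin 2 → ℕ)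
    (hω : 0 < ω 0 + ω 1)
    (hf : MvPolynomial.weightedTotalDegree ω f ≤ d * (ω 0 + ω 1)) (Z : M)
    (hZ : Z ^ d = MvPolynomial.aeval x f) (hZK : Z ^ d ∈ K₀)
    (irr : Irreducible (X ^ d - C (⟨Z ^ d, hZK⟩ : K₀) : K₀[X]))
    (ih : ∀ m, 1 < m → m ∣ d → Emt (K₀ ⊔ IntermediateField.adjoin k {Z ^ m})) :
    Emt (K₀ ⊔ IntermediateField.adjoin k {Z}) := by
  classical
  have hxfg : (IntermediateField.adjoin k (Set.range x) : IntermediateField k M).FG :=
    ⟨Finset.univ.image x, by rw [Finset.coe_image, Finset.coe_univ, Set.image_univ]⟩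
  have hfg : K₀.FG := by
    rw [hK₀]
    exact IntermediateField.fg_sup hEfg hxfg
  have hd0 : 0 < d := by omega
  have hZ0 : Z ≠ 0 := by
    rintro rfl
    apply hf0
    rw [← hZ, zero_pow hd0.ne']
  have hF0 : (⟨Z ^ d, hZK⟩ : K₀) ≠ 0 := fun h => pow_ne_zero d hZ0 (congrArg Subtype.val h)
  by_cases hd2 : d = 2
  · subst hd2
    have hle : K₀ ≤ K₀ ⊔ IntermediateField.adjoin k {Z} := le_sup_left
    refine emt_of_uniruled _ (IntermediateField.fg_sup hfg ⟨{Z}, by simp⟩) htd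
      (fun y => alg_le hle (hal y)) ?_
    exact uni_2 K₀ htd hal E hEfg hEtd x hK₀ h2 f ω hω Z hZ hf
  by_cases hd6 : d = 6
  · subst hd6
    have h3 : (3 : k) ≠ 0 := by
      intro h
      apply hdk
      have h4 : ((6 : ℕ) : k) = 2 * 3 := by norm_num
      rw [h4, h, mul_zero]
    obtain ⟨hb, hbds⟩ := bc_6 (M := M) h2 h3
    obtain ⟨L, i1, i2, i3, i4, a, w, ha, -, hw, hgen⟩ := six_exists (κ := k)
      (⟨Z ^ 6, hZK⟩ : K₀) hF0
    refine emt_final K₀ hfg htd hal 6 (1 + X) (X ^ 3) hb Z hZ0 hZK irr L a w ha ?_ hgen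
      (uni_6 K₀ htd hal E hEfg hEtd x hK₀ h2 f hf0 ω hω ⟨Z ^ 6, hZK⟩ hZ L a w ha hgen hf hw) ?_
    · rw [map_add, map_one, map_pow, aeval_X]
      exact hw
    · intro e he
      rcases hbds e he with rfl | rfl | rfl
      · exact ih 6 (by norm_num) (by norm_num)
      · exact ih 3 (by norm_num) (by norm_num)
      · exact ih 2 (by norm_num) (by norm_num)
  · have hd34 : d = 3 ∨ d = 4 := by omega
    obtain ⟨hb, hbds⟩ := bc_34 (k := k) (M := M) d hdk h2
    obtain ⟨L, i1, i2, i3, i4, a, w, ha, -, hw, hgen⟩ := Pool.Agent.TUQ.fam_exists (k := k) d hd0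
      (⟨Z ^ d, hZK⟩ : K₀) hF0
    refine emt_final K₀ hfg htd hal d (1 + X ^ 2) 1 hb Z hZ0 hZK irr L a w ha ?_ hgen
      (uni_34 K₀ htd hal E hEfg hEtd x hK₀ h2 f hf0 ω hω ⟨Z ^ d, hZK⟩ hZ L a w ha hgen d hd34 hf
        hw) ?_
    · rw [map_add, map_one, map_pow, aeval_X, mul_one]
      exact hw
    · intro e he
      rcases hbds e he with rfl | rfl
      · rcases hd34 with rfl | rfl
        · exact ih 3 (by norm_num) (by norm_num)
        · exact ih 4 (by norm_num) (by norm_num)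
      · rcases hd34 with rfl | rfl
        · exact ih 3 (by norm_num) (by norm_num)
        · exact ih 2 (by norm_num) (by norm_num)

end

end Pool.Agent.KTW
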