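import Mathlib

/-!
# Irreducible binomials over rational function fields
-/

set_option autoImplicit false

namespace Pool.Agent.KTW

open Polynomial

universe u

/-- `X ^ d - F` is irreducible if no power `F ^ n` is a `d`-th power unless `d ∣ n`. -/
theorem irr_of_pow {K : Type u} [Field K] (d : ℕ) (hd : 0 < d) (F : K)
    (h : ∀ (n : ℕ) (b : K), b ^ d = F ^ n → d ∣ n) : Irreducible (X ^ d - C F : K[X]) := by
  have h0 : ¬ IsUnit (X ^ d - C F : K[X]) := by
    rw [Polynomial.isUnit_iff_degree_eq_zero, degree_X_pow_sub_C hd, Nat.cast_eq_zero]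
    exact hd.ne'
  have ⟨g, hg, hg'⟩ := WfDvdMonoid.exists_irreducible_factor h0 (X_pow_sub_C_ne_zero hd F)
  have hdeg : natDegree g ≤ d :=
    (natDegree_le_of_dvd hg' (X_pow_sub_C_ne_zero hd F)).trans_eq natDegree_X_pow_sub_C
  have key : (Algebra.norm K (AdjoinRoot.root g)) ^ d = F ^ g.natDegree := by
    have := eval₂_eq_zero_of_dvd_of_eval₂_eq_zero _ _ hg' (AdjoinRoot.eval₂_root g)
    rw [eval₂_sub, eval₂_pow, eval₂_C, eval₂_X, sub_eq_zero] at this
    rw [← map_pow, this, ← AdjoinRoot.algebraMap_eq, Algebra.norm_algebraMap,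
      (AdjoinRoot.powerBasis hg.ne_zero).finrank, AdjoinRoot.powerBasis_dim hg.ne_zero]
  have hpos : 0 < natDegree g := natDegree_pos_iff_degree_pos.mpr
    (Polynomial.degree_pos_of_irreducible hg)
  have h1 : natDegree g = d := le_antisymm hdeg (Nat.le_of_dvd hpos (h _ _ key))
  exact (associated_of_dvd_of_natDegree_le hg' (X_pow_sub_C_ne_zero hd F)
    (h1.trans natDegree_X_pow_sub_C.symm).ge).irreducible hg

/-- the multiplicity of `π_j` in a product of powers of pairwise non-associated irreducible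
elements -/
theorem emult_prod {A : Type*} [CommRing A] [IsDomain A] [UniqueFactorizationMonoid A] {m : ℕ}
    (π : Fin m → A) (hirr : ∀ j, Irreducible (π j))
    (hass : ∀ i j, i ≠ j → ¬ Associated (π i) (π j)) (e : Fin m → ℕ) (j : Fin m) :
    emultiplicity (π j) (∏ i, π i ^ e i) = e j := by
  have hp : Prime (π j) := (hirr j).prime
  rw [Finset.emultiplicity_prod hp]
  rw [Finset.sum_eq_single j]
  · rw [emultiplicity_pow_self hp.ne_zero hp.not_isUnit]
  · intro i _ hij
    rw [emultiplicity_pow hp]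
    have : emultiplicity (π j) (π i) = 0 := by
      rw [emultiplicity_eq_zero]
      intro h
      exact hass j i hij.symm ((hirr j).associated_of_dvd (hirr i) h)
    rw [this, mul_zero]
  · intro h
    exact absurd (Finset.mem_univ j) h

/-- the arithmetic of exponents -/
theorem dvd_of_forall {m : ℕ} (d : ℕ) (hd : 0 < d) (e : Fin m → ℕ)
    (he : ∀ q : ℕ, q.Prime → q ∣ d → ∃ j, ¬ q ∣ e j) (n : ℕ) (h : ∀ j, d ∣ n * e j) : d ∣ n := by
  obtain ⟨g, hg⟩ : ∃ g, g = Nat.gcd d n := ⟨_, rfl⟩
  have hgd : g ∣ d := by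
    rw [hg]
    exact Nat.gcd_dvd_left _ _
  obtain ⟨c, hc⟩ := hgd
  have hg0 : 0 < g := by
    rw [hg]
    exact Nat.gcd_pos_of_pos_left _ hd
  by_cases hc1 : c = 1
  · rw [hc, hc1, mul_one, hg]
    exact Nat.gcd_dvd_right _ _
  exfalso
  obtain ⟨q, hq, hqc⟩ := Nat.exists_prime_and_dvd hc1
  obtain ⟨j, hj⟩ := he q hq (hqc.trans ⟨g, by rw [hc, mul_comm]⟩)
  obtain ⟨n', hn'⟩ : g ∣ n := by
    rw [hg]
    exact Nat.gcd_dvd_right _ _
  have hcop : Nat.Coprime c n' := by
    have h1 : g = g * Nat.gcd c n' := by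
      conv_lhs => rw [hg, hc, hn', Nat.gcd_mul_left]
    exact Nat.eq_of_mul_eq_mul_left hg0 (by rw [← h1, mul_one])
  have h2 : c ∣ n' * e j := by
    have h3 := h j
    rw [hc, hn', mul_assoc] at h3
    exact Nat.dvd_of_mul_dvd_mul_left hg0 h3
  exact hj (hqc.trans (hcop.dvd_of_dvd_mul_left h2))

theorem irr_pow {k M : Type u} [Field k] [Field M] [Algebra k M] (E : IntermediateField k M)
    (x : Fin 2 → M) (hx : AlgebraicIndependent E x) {m : ℕ}
    (π : Fin m → MvPolynomial (Fin 2) E) (hirr : ∀ j, Irreducible (π j))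
    (hass : ∀ i j, i ≠ j → ¬ Associated (π i) (π j)) (d : ℕ) (hd : 0 < d) (e : Fin m → ℕ)
    (he : ∀ q : ℕ, q.Prime → q ∣ d → ∃ j, ¬ q ∣ e j) (K₀ : IntermediateField k M)
    (hK₀ : K₀ = E ⊔ IntermediateField.adjoin k (Set.range x)) (F : K₀)
    (hF : (F : M) = MvPolynomial.aeval x (∏ j, π j ^ e j)) :
    Irreducible (X ^ d - C F : K₀[X]) := by
  have hinj : Function.Injective (MvPolynomial.aeval x : MvPolynomial (Fin 2) E →ₐ[E] M) := hx
  obtain ⟨G, hG⟩ : ∃ G, G = ∏ j, π j ^ e j := ⟨_, rfl⟩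
  have hG0 : G ≠ 0 := by
    rw [hG]
    exact Finset.prod_ne_zero_iff.2 fun j _ => pow_ne_zero _ (hirr j).ne_zero
  have hF0 : (F : M) ≠ 0 := by
    rw [hF, ← hG]
    intro h
    exact hG0 (hinj (by rw [h, map_zero]))
  refine irr_of_pow d hd F fun n b hb => ?_
  have hbM : (b : M) ^ d = (F : M) ^ n := by
    have := congrArg (Subtype.val) hb
    push_cast at this
    exact this
  have hmem : (b : M) ∈ IntermediateField.adjoin E (Set.range x) := by
    have h1 : K₀ ≤ (IntermediateField.adjoin E (Set.range x)).restrictScalars k := by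
      rw [hK₀]
      refine sup_le (fun c hc => ?_) ?_
      · exact (IntermediateField.adjoin E (Set.range x)).algebraMap_mem ⟨c, hc⟩
      · rw [IntermediateField.adjoin_le_iff]
        exact IntermediateField.subset_adjoin E (Set.range x)
    exact h1 b.2
  obtain ⟨r, s, hrs⟩ := (IntermediateField.mem_adjoin_range_iff E x (b : M)).1 hmem
  have hb0 : (b : M) ^ d ≠ 0 := by
    rw [hbM]
    exact pow_ne_zero _ hF0
  have hs0 : MvPolynomial.aeval x s ≠ 0 := by
    intro h
    rw [h, div_zero] at hrs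
    rw [hrs, zero_pow hd.ne'] at hb0
    exact hb0 rfl
  have hr0 : MvPolynomial.aeval x r ≠ 0 := by
    intro h
    rw [h, zero_div] at hrs
    rw [hrs, zero_pow hd.ne'] at hb0
    exact hb0 rfl
  have hs : s ≠ 0 := fun h => hs0 (by rw [h, map_zero])
  have hr : r ≠ 0 := fun h => hr0 (by rw [h, map_zero])
  have key : r ^ d = G ^ n * s ^ d := by
    apply hinj
    rw [map_pow, map_mul, map_pow, map_pow]
    have h1 : (MvPolynomial.aeval x r) ^ d = (b : M) ^ d * (MvPolynomial.aeval x s) ^ d := by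
      rw [hrs, div_pow, div_mul_cancel₀ _ (pow_ne_zero _ hs0)]
    rw [h1, hbM, hF, ← hG]
  refine dvd_of_forall d hd e he n fun j => ?_
  have hp : Prime (π j) := (hirr j).prime
  have h2 := congrArg (emultiplicity (π j)) key
  rw [emultiplicity_pow hp, emultiplicity_mul hp, emultiplicity_pow hp, emultiplicity_pow hp, hG,
    emult_prod π hirr hass e j] at h2
  have hfr : FiniteMultiplicity (π j) r := FiniteMultiplicity.of_prime_left hp hr
  have hfs : FiniteMultiplicity (π j) s := FiniteMultiplicity.of_prime_left hp hs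
  rw [hfr.emultiplicity_eq_multiplicity, hfs.emultiplicity_eq_multiplicity] at h2
  have h3 : d * multiplicity (π j) r = n * e j + d * multiplicity (π j) s := by
    exact_mod_cast h2
  have h4 : d ∣ n * e j + d * multiplicity (π j) s := ⟨_, h3.symm⟩
  exact (Nat.dvd_add_left (Dvd.intro _ rfl)).1 h4

end Pool.Agent.KTW
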