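import Pool.Agent.KTW.A
import Pool.Agent.KTW.KC
import Pool.Agent.KTW.E1
import Pool.Agent.KTW.E2
import Pool.Agent.ADT.C2

/-!
# Cyclic Kummer extensions of the plane, induction over the degree
-/

set_option autoImplicit false

namespace Pool.Agent.KTW

open Polynomial Pool.Agent.TBR Pool.Agent.TUQ Pool.Agent.UQ Pool.Agent.WLD Pool.Agent.ADT

universe u

section

variable {k M : Type u} [Field k] [Field M] [Algebra k M]

theorem two_plane (E : IntermediateField k M) (hEfg : E.FG) (hEtd : Algebra.trdeg k E = 0)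
    (x : Fin 2 → M) : Two (E ⊔ IntermediateField.adjoin k (Set.range x)) := by
  refine ⟨E ⊔ IntermediateField.adjoin k {x 0}, IntermediateField.adjoin k {x 1},
    IntermediateField.fg_sup hEfg ⟨{x 0}, by rw [Finset.coe_singleton]⟩,
    ⟨{x 1}, by rw [Finset.coe_singleton]⟩, ?_, trdeg_adjoin_singleton_le _, ?_⟩
  · refine (trdeg_sup_singleton_le E (x 0)).trans ?_
    rw [hEtd, zero_add]
  · rw [sup_assoc, ← IntermediateField.adjoin_union]
    congr 2
    ext b
    constructor
    · rintro ⟨i, rfl⟩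
      fin_cases i
      · exact Or.inl rfl
      · exact Or.inr rfl
    · rintro (rfl | rfl)
      · exact ⟨0, rfl⟩
      · exact ⟨1, rfl⟩

/-- the field does not change if the generator is multiplied by an element of the base -/
theorem sup_congr_mul (K : IntermediateField k M) (Z Z' g : M) (hg : g ∈ K) (hg0 : g ≠ 0)
    (h : Z = Z' * g) : K ⊔ IntermediateField.adjoin k {Z} = K ⊔ IntermediateField.adjoin k {Z'} := by
  apply le_antisymm
  · refine sup_le le_sup_left ?_
    rw [IntermediateField.adjoin_le_iff, Set.singleton_subset_iff, SetLike.mem_coe]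
    rw [h]
    exact mul_mem ((le_sup_right : IntermediateField.adjoin k {Z'} ≤ _)
      (IntermediateField.subset_adjoin k _ rfl)) ((le_sup_left : K ≤ _) hg)
  · refine sup_le le_sup_left ?_
    rw [IntermediateField.adjoin_le_iff, Set.singleton_subset_iff, SetLike.mem_coe]
    have h1 : Z' = Z / g := by rw [h, mul_div_cancel_right₀ _ hg0]
    rw [h1]
    exact div_mem ((le_sup_right : IntermediateField.adjoin k {Z} ≤ _)
      (IntermediateField.subset_adjoin k _ rfl)) ((le_sup_left : K ≤ _) hg)

/-- the field does not change if the generator is inverted and multiplied -/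
theorem sup_congr_inv (K : IntermediateField k M) (Z Z' g : M) (hg : g ∈ K) (hg0 : g ≠ 0)
    (hZ : Z ≠ 0) (h : Z * Z' = g) :
    K ⊔ IntermediateField.adjoin k {Z} = K ⊔ IntermediateField.adjoin k {Z'} := by
  have hZ' : Z' ≠ 0 := by
    rintro rfl
    rw [mul_zero] at h
    exact hg0 h.symm
  apply le_antisymm
  · refine sup_le le_sup_left ?_
    rw [IntermediateField.adjoin_le_iff, Set.singleton_subset_iff, SetLike.mem_coe]
    have h1 : Z = g / Z' := by rw [← h, mul_div_cancel_right₀ _ hZ']
    rw [h1]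
    exact div_mem ((le_sup_left : K ≤ _) hg) ((le_sup_right : IntermediateField.adjoin k {Z'} ≤ _)
      (IntermediateField.subset_adjoin k _ rfl))
  · refine sup_le le_sup_left ?_
    rw [IntermediateField.adjoin_le_iff, Set.singleton_subset_iff, SetLike.mem_coe]
    have h1 : Z' = g / Z := by rw [← h, mul_div_cancel_left₀ _ hZ]
    rw [h1]
    exact div_mem ((le_sup_left : K ≤ _) hg) ((le_sup_right : IntermediateField.adjoin k {Z} ≤ _)
      (IntermediateField.subset_adjoin k _ rfl))

theorem wtd_prod_le {F : Type*} [Field F] {σ : Type} (ω : σ → ℕ) {m : ℕ}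
    (π : Fin m → MvPolynomial σ F) (e : Fin m → ℕ) :
    MvPolynomial.weightedTotalDegree ω (∏ j, π j ^ e j) ≤
      ∑ j, e j * MvPolynomial.weightedTotalDegree ω (π j) := by
  classical
  induction (Finset.univ : Finset (Fin m)) using Finset.induction_on with
  | empty =>
    rw [Finset.prod_empty, Finset.sum_empty]
    exact wle_one ω
  | insert a s ha ih =>
    rw [Finset.prod_insert ha, Finset.sum_insert ha]
    exact wle_mul ω _ _ _ _ (wle_pow ω _ _) ih

theorem aeval_mem_K {E : IntermediateField k M} {x : Fin 2 → M} {K₀ : IntermediateField k M}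
    (hK₀ : K₀ = E ⊔ IntermediateField.adjoin k (Set.range x)) (f : MvPolynomial (Fin 2) E) :
    MvPolynomial.aeval x f ∈ K₀ := by
  rw [hK₀]
  exact aeval_mem_sup E x f

theorem aeval_ne {E : IntermediateField k M} {x : Fin 2 → M}
    (hx : AlgebraicIndependent E x) {f : MvPolynomial (Fin 2) E} (hf : Irreducible f) :
    MvPolynomial.aeval x f ≠ 0 := fun h => hf.ne_zero ((injective_iff_map_eq_zero _).1 hx _ h)

theorem aeval_prod_ne {E : IntermediateField k M} {x : Fin 2 → M}
    (hx : AlgebraicIndependent E x) {m : ℕ} (π : Fin m → MvPolynomial (Fin 2) E)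
    (hirr : ∀ j, Irreducible (π j)) (e : Fin m → ℕ) :
    MvPolynomial.aeval x (∏ j, π j ^ e j) ≠ 0 := by
  intro h
  have h1 : ∏ j, π j ^ e j = 0 := (injective_iff_map_eq_zero _).1 hx _ h
  obtain ⟨j, -, hj⟩ := Finset.prod_eq_zero_iff.1 h1
  exact (hirr j).ne_zero (eq_zero_of_pow_eq_zero hj)

/-- **Cyclic Kummer extensions of the plane.** -/
theorem emt_ind [IsAlgClosed M] (htd : Algebra.trdeg k M = 2) (E : IntermediateField k M)
    (hEfg : E.FG) (hEtd : Algebra.trdeg k E = 0) (x : Fin 2 → M) (hx : AlgebraicIndependent E x)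
    (K₀ : IntermediateField k M) (hK₀ : K₀ = E ⊔ IntermediateField.adjoin k (Set.range x))
    (hal : ∀ y : M, IsAlgebraic K₀ y) (h2 : (2 : k) ≠ 0) (ω : Fin 2 → ℕ) (hω : 0 < ω 0 + ω 1)
    {m : ℕ} (π : Fin m → MvPolynomial (Fin 2) E) (hirr : ∀ j, Irreducible (π j))
    (hass : ∀ i j, i ≠ j → ¬ Associated (π i) (π j)) {N : ℕ} (hN : N = 2 ∨ N = 3 ∨ N = 4 ∨ N = 6)
    (hNk : (N : k) ≠ 0) {ζ : M} (hζ : IsPrimitiveRoot ζ N) (hζE : ζ ∈ E) :
    ∀ d : ℕ, 0 < d → d ∣ N → ∀ (Z : M) (e : Fin m → ℕ),
      Z ^ d = MvPolynomial.aeval x (∏ j, π j ^ e j) →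
      (∀ t : ℕ, Cnd d (ω 0 + ω 1) (fun j => MvPolynomial.weightedTotalDegree ω (π j))
        (fun j => t * e j)) → Emt (K₀ ⊔ IntermediateField.adjoin k {Z}) := by
  intro d
  induction d using Nat.strong_induction_on with
  | _ d ih =>
  intro hd0 hdN Z e hZ hC
  have hEK : E ≤ K₀ := by
    rw [hK₀]
    exact le_sup_left
  have hZ0 : Z ≠ 0 := by
    rintro rfl
    rw [zero_pow hd0.ne'] at hZ
    exact aeval_prod_ne hx π hirr e hZ.symm
  rcases Nat.lt_or_ge 1 d with hd1 | hd1
  swap
  · -- `d = 1`
    obtain rfl : d = 1 := le_antisymm hd1 hd0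
    rw [pow_one] at hZ
    have h1 : K₀ ⊔ IntermediateField.adjoin k {Z} = K₀ := by
      refine sup_eq_left.2 ?_
      rw [IntermediateField.adjoin_le_iff, Set.singleton_subset_iff, SetLike.mem_coe, hZ]
      exact aeval_mem_K hK₀ _
    rw [h1]
    refine emt_two ?_ hal
    rw [hK₀]
    exact two_plane E hEfg hEtd x
  by_cases hred : ∃ q : ℕ, q.Prime ∧ q ∣ d ∧ ∀ j, q ∣ e j
  · -- the exponents have a common divisor
    obtain ⟨q, hq, ⟨d', rfl⟩, hqe⟩ := hred
    choose e' he' using hqe
    have hd'0 : 0 < d' := Nat.pos_of_mul_pos_left hd0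
    obtain ⟨G, hG⟩ : ∃ G, G = MvPolynomial.aeval x (∏ j, π j ^ e' j) := ⟨_, rfl⟩
    have hG0 : G ≠ 0 := by
      rw [hG]
      exact aeval_prod_ne hx π hirr e'
    have hZG : (Z ^ d') ^ q = G ^ q := by
      rw [← pow_mul, mul_comm d' q, hZ, hG, ← map_pow, ← Finset.prod_pow]
      congr 1
      refine Finset.prod_congr rfl fun j _ => ?_
      rw [he' j, ← pow_mul, mul_comm]
    obtain ⟨c, hc⟩ := hdN
    have hN0 : 0 < N := by omega
    have hc0 : 0 < c := by
      rcases Nat.eq_zero_or_pos c with h | h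
      · rw [h, mul_zero] at hc
        omega
      · exact h
    -- a primitive root of order `q`
    have hζq : IsPrimitiveRoot (ζ ^ (d' * c)) q := hζ.pow hN0 (by rw [hc]; ring)
    have hqN : NeZero q := ⟨hq.ne_zero⟩
    have h1 : (Z ^ d' / G) ^ q = 1 := by rw [div_pow, hZG, div_self (pow_ne_zero _ hG0)]
    obtain ⟨i, -, hi⟩ := hζq.eq_pow_of_pow_eq_one h1
    obtain ⟨η, hη⟩ : ∃ η, η = ζ ^ (c * i) := ⟨_, rfl⟩
    have hηE : η ∈ E := by
      rw [hη]
      exact pow_mem hζE _
    have hη0 : η ≠ 0 := by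
      rw [hη]
      exact pow_ne_zero _ (hζ.ne_zero hN0.ne')
    have hηd : η ^ d' = Z ^ d' / G := by
      rw [← hi, hη, ← pow_mul, ← pow_mul]
      congr 1
      ring
    have hZ' : (Z / η) ^ d' = MvPolynomial.aeval x (∏ j, π j ^ e' j) := by
      rw [div_pow, hηd, ← hG, div_div_cancel₀ (pow_ne_zero _ hZ0)]
    rw [sup_congr_mul K₀ Z (Z / η) η (hEK hηE) hη0 (div_mul_cancel₀ Z hη0).symm]
    refine ih d' ?_ hd'0 ⟨q * c, by rw [hc]; ring⟩ (Z / η) e' hZ' fun t => ?_
    · have := hq.two_le
      nlinarith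
    · rw [← cnd_scale q d' hq.pos hd'0]
      have h3 := hC t
      have h4 : (fun j => t * e j) = fun j => q * (t * e' j) := by
        funext j
        rw [he' j]
        ring
      rw [h4] at h3
      exact h3
  · push Not at hred
    -- the primitive case
    have prim : ∀ (Z' : M) (e' : Fin m → ℕ), Z' ^ d = MvPolynomial.aeval x (∏ j, π j ^ e' j) →
        (∀ q : ℕ, q ∣ d → ∀ j, q ∣ e' j → q ∣ e j) →
        ∑ j, e' j * MvPolynomial.weightedTotalDegree ω (π j) ≤ d * (ω 0 + ω 1) →
        K₀ ⊔ IntermediateField.adjoin k {Z} = K₀ ⊔ IntermediateField.adjoin k {Z'} →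
        (∀ n, 1 < n → n ∣ d → K₀ ⊔ IntermediateField.adjoin k {Z' ^ n} =
          K₀ ⊔ IntermediateField.adjoin k {Z ^ n}) →
        Emt (K₀ ⊔ IntermediateField.adjoin k {Z}) := by
      intro Z' e' hZ' hqe hwt hK hKn
      have hZK : Z' ^ d ∈ K₀ := by
        rw [hZ']
        exact aeval_mem_K hK₀ _
      have irr := irr_pow E x hx π hirr hass d hd0 e' (fun q hq hqd => by
        obtain ⟨j, hj⟩ := hred q hq hqd
        exact ⟨j, fun h => hj (hqe q hqd j h)⟩) K₀ hK₀ ⟨Z' ^ d, hZK⟩ hZ'
      rw [hK]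
      refine emt_cyc htd E hEfg hEtd x K₀ hK₀ hal h2 d ?_ ?_ (∏ j, π j ^ e' j)
        (aeval_prod_ne hx π hirr e') ω hω ?_ Z' hZ' hZK irr fun n hn hnd => ?_
      · rcases hN with rfl | rfl | rfl | rfl
        · have h5 : d ≤ 2 := Nat.le_of_dvd (by norm_num) hdN
          exact Or.inl (by omega)
        · have h5 : d ≤ 3 := Nat.le_of_dvd (by norm_num) hdN
          interval_cases d
          · omega
          · exact Or.inr (Or.inl rfl)
        · have h5 : d ≤ 4 := Nat.le_of_dvd (by norm_num) hdN
          interval_cases d <;> omega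
        · have h5 : d ≤ 6 := Nat.le_of_dvd (by norm_num) hdN
          interval_cases d <;> omega
      · intro h
        apply hNk
        obtain ⟨c, hc⟩ := hdN
        rw [hc, Nat.cast_mul, h, zero_mul]
      · exact (wtd_prod_le ω π e').trans hwt
      · rw [hKn n hn hnd]
        obtain ⟨d', hd'⟩ := hnd
        have hd'0 : 0 < d' := by
          rcases Nat.eq_zero_or_pos d' with h | h
          · rw [h, mul_zero] at hd'
            omega
          · exact h
        refine ih d' ?_ hd'0 ?_ (Z ^ n) e ?_ fun t => ?_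
        · rw [hd']
          nlinarith
        · exact (Dvd.intro_left n hd'.symm).trans hdN
        · rw [← pow_mul, ← hd', hZ]
        · rw [← cnd_scale n d' (by omega) hd'0, ← hd']
          have h3 := hC (n * t)
          have h4 : (fun j => n * t * e j) = fun j => n * (t * e j) := by
            funext j
            ring
          rw [h4] at h3
          exact h3
    have hK1 := hC 1
    have h11 : (fun j => 1 * e j) = e := by
      funext j
      rw [one_mul]
    rw [h11] at hK1
    rcases hK1 with hK1 | hK1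
    · -- reduce the exponents modulo `d`
      obtain ⟨g, hg⟩ : ∃ g, g = MvPolynomial.aeval x (∏ j, π j ^ (e j / d)) := ⟨_, rfl⟩
      have hg0 : g ≠ 0 := by
        rw [hg]
        exact aeval_prod_ne hx π hirr _
      have hgK : g ∈ K₀ := by
        rw [hg]
        exact aeval_mem_K hK₀ _
      refine prim (Z / g) (fun j => e j % d) ?_ (fun q hq j h => ?_) hK1
        (sup_congr_mul K₀ Z (Z / g) g hgK hg0 (div_mul_cancel₀ Z hg0).symm) fun n _ _ => ?_
      · rw [div_pow, hZ, hg, ← map_pow, ← Finset.prod_pow, div_eq_iff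
          (by
            rw [map_prod]
            refine Finset.prod_ne_zero_iff.2 fun j _ => ?_
            rw [map_pow, map_pow]
            exact pow_ne_zero _ (pow_ne_zero _ (aeval_ne hx (hirr j)))), ← map_mul,
          ← Finset.prod_mul_distrib]
        congr 1
        refine Finset.prod_congr rfl fun j _ => ?_
        rw [← pow_mul, ← pow_add]
        congr 1
        have := Nat.mod_add_div (e j) d
        rw [mul_comm (e j / d) d]
        exact this.symm
      · exact (Nat.dvd_mod_iff hq).1 h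
      · refine (sup_congr_mul K₀ (Z ^ n) ((Z / g) ^ n) (g ^ n) (pow_mem hgK n)
          (pow_ne_zero _ hg0) ?_).symm
        rw [← mul_pow, div_mul_cancel₀ Z hg0]
    · -- invert and reduce
      obtain ⟨e', he'⟩ : ∃ e' : Fin m → ℕ, e' = fun j => (d - e j % d) % d := ⟨_, rfl⟩
      have hdiv : ∀ j, ∃ c, e j + e' j = d * c := by
        intro j
        have h3 : (e j + e' j) % d = 0 := by
          have h4 := Nat.mod_lt (e j) hd0
          have h5 := Nat.mod_add_div (e j) d
          have h6 : e j + (d - e j % d) = d * (e j / d + 1) := by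
            rw [mul_add, mul_one]
            omega
          rw [he', Nat.add_mod_mod, h6, Nat.mul_mod_right]
        exact ⟨_, (Nat.mul_div_cancel' (Nat.dvd_of_mod_eq_zero h3)).symm⟩
      choose c hc using hdiv
      obtain ⟨g, hg⟩ : ∃ g, g = MvPolynomial.aeval x (∏ j, π j ^ c j) := ⟨_, rfl⟩
      have hg0 : g ≠ 0 := by
        rw [hg]
        exact aeval_prod_ne hx π hirr _
      have hgK : g ∈ K₀ := by
        rw [hg]
        exact aeval_mem_K hK₀ _
      have hZg : Z * (g / Z) = g := mul_div_cancel₀ _ hZ0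
      refine prim (g / Z) e' ?_ (fun q hq j h => ?_) (by rw [he']; exact hK1)
        (sup_congr_inv K₀ Z (g / Z) g hgK hg0 hZ0 hZg) fun n _ _ => ?_
      · rw [div_pow, hZ, hg, ← map_pow, ← Finset.prod_pow, div_eq_iff (aeval_prod_ne hx π hirr e),
          ← map_mul, ← Finset.prod_mul_distrib]
        congr 1
        refine Finset.prod_congr rfl fun j _ => ?_
        rw [← pow_mul, ← pow_add]
        congr 1
        have := hc j
        rw [mul_comm (c j) d, ← this, add_comm]
      · have h3 : q ∣ e j + e' j := by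
          rw [hc j]
          exact dvd_mul_of_dvd_left hq _
        exact (Nat.dvd_add_left h).1 h3
      · refine (sup_congr_inv K₀ (Z ^ n) ((g / Z) ^ n) (g ^ n) (pow_mem hgK n)
          (pow_ne_zero _ hg0) (pow_ne_zero _ hZ0) ?_).symm
        rw [← mul_pow, hZg]

end

end Pool.Agent.KTW
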