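import Pool.Agent.KTW.E3
import Pool.Agent.KTW.D

/-!
# Kummer towers over the plane
-/

set_option autoImplicit false

namespace Pool.Agent.KTW

open Polynomial Pool.Agent.TBR Pool.Agent.TUQ Pool.Agent.UQ Pool.Agent.WLD Pool.Agent.ADT

universe u

section

variable {k M : Type u} [Field k] [Field M] [Algebra k M]

/-- the coordinates are algebraically independent over the constants -/
theorem indep_plane (htd : Algebra.trdeg k M = 2) (E : IntermediateField k M)
    (hEtd : Algebra.trdeg k E = 0) (x : Fin 2 → M)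
    (hal : ∀ y : M, IsAlgebraic (E ⊔ IntermediateField.adjoin k (Set.range x) :
      IntermediateField k M) y) : AlgebraicIndependent E x := by
  have h1 : Algebra.trdeg E M = 2 := by
    have h3 := trdeg_add_eq k E (A := M)
    rwa [hEtd, zero_add, htd] at h3
  have h0 : (E ⊔ IntermediateField.adjoin k (Set.range x) : IntermediateField k M) =
      (IntermediateField.adjoin E (Set.range x)).restrictScalars k := by
    rw [IntermediateField.restrictScalars_adjoin, IntermediateField.adjoin_union,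
      IntermediateField.adjoin_self]
  rw [h0] at hal
  have h2 : Algebra.IsAlgebraic (Algebra.adjoin E (Set.range x)) M :=
    ⟨fun y => IntermediateField.isAlgebraic_adjoin_iff.1 (hal y)⟩
  refine (Algebra.IsAlgebraic.isTranscendenceBasis_of_lift_le_trdeg_of_finite E x ?_).1
  rw [h1]
  simp

theorem mon_pow {N r : ℕ} (z : Fin r → M) (c : Fin r → ZMod N) (n : ℕ) :
    mon z c ^ n = ∏ i, (z i ^ n) ^ (c i).val := by
  rw [mon, ← Finset.prod_pow]
  exact Finset.prod_congr rfl fun i _ => by rw [← pow_mul, ← pow_mul, mul_comm]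

/-- **Kummer towers over the plane.** -/
theorem tower_kummer [IsAlgClosed M] (htd : Algebra.trdeg k M = 2) (x : Fin 2 → M)
    (hal : ∀ y : M, IsAlgebraic (IntermediateField.adjoin k (Set.range x)) y) (N : ℕ)
    (hN : N = 2 ∨ N = 3 ∨ N = 4 ∨ N = 6) (hNk : (N : k) ≠ 0) (h2 : (2 : k) ≠ 0) {r : ℕ}
    (h : Fin r → MvPolynomial (Fin 2) k) (h0 : ∀ i, h i ≠ 0) (ω : Fin 2 → ℕ)
    (hω : 0 < ω 0 + ω 1) (W : AddSubgroup (Fin r → ZMod N))
    (hW : ∀ e ∈ W, ∑ i, (e i).val * MvPolynomial.weightedTotalDegree ω (h i) ≤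
        N * (ω 0 + ω 1) ∨
      ∑ i, (-e i).val * MvPolynomial.weightedTotalDegree ω (h i) ≤ N * (ω 0 + ω 1))
    (S : Finset M)
    (hS : ∀ z ∈ S, ∃ (c : k) (e : Fin r → ℕ), c ≠ 0 ∧ (fun i => (e i : ZMod N)) ∈ W ∧
      z ^ N = algebraMap k M c * ∏ i, MvPolynomial.aeval x (h i) ^ e i)
    (F : IntermediateField k M)
    (hF : F ≤ IntermediateField.adjoin k (Set.range x ∪ (S : Set M)))
    (hFal : ∀ y : M, IsAlgebraic F y) : Emt F := by
  classical
  have hN0 : 0 < N := by omega
  have hNz : NeZero N := ⟨hN0.ne'⟩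
  have hNM : NeZero (N : M) := ⟨by
    rw [← map_natCast (algebraMap k M)]
    exact (_root_.map_ne_zero _).2 hNk⟩
  -- a primitive root
  obtain ⟨ζ, hζ⟩ := HasEnoughRootsOfUnity.exists_primitiveRoot M N
  -- the set `S`
  obtain ⟨t, z, hz⟩ : ∃ (t : ℕ) (z : Fin t → M), Set.range z = (S : Set M) :=
    ⟨S.card, fun i => (S.equivFin.symm i : M), by
      ext y
      constructor
      · rintro ⟨i, rfl⟩
        exact (S.equivFin.symm i).2
      · intro hy
        exact ⟨S.equivFin ⟨y, hy⟩, by simp⟩⟩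
  have hzS : ∀ i, z i ∈ S := fun i => by
    have : z i ∈ (S : Set M) := by
      rw [← hz]
      exact ⟨i, rfl⟩
    exact this
  choose c e hc he hzN using fun i => hS (z i) (hzS i)
  choose γ hγ using fun i : Fin t => IsAlgClosed.exists_pow_nat_eq (algebraMap k M (c i)) hN0
  have hγalg : ∀ i, IsAlgebraic k (γ i) := fun i =>
    IsAlgebraic.of_pow hN0 (by rw [hγ i]; exact isAlgebraic_algebraMap _)
  have hζalg : IsAlgebraic k ζ := IsAlgebraic.of_pow hN0 (by
    rw [hζ.pow_eq_one]
    exact isAlgebraic_one)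
  -- the factors
  obtain ⟨C₀, m, π, u, a, hC₀, hT, hirr, hass, -, hwa, hu, hh⟩ := exists_factor h h0 ω N hN0
    (insert ζ (Finset.univ.image γ)) (by
      intro y hy
      rcases Finset.mem_insert.1 hy with rfl | hy
      · exact hζalg
      · obtain ⟨i, -, rfl⟩ := Finset.mem_image.1 hy
        exact hγalg i)
  have hEfg : (IntermediateField.adjoin k (C₀ : Set M)).FG := ⟨C₀, rfl⟩
  have hEalg : Algebra.IsAlgebraic k (IntermediateField.adjoin k (C₀ : Set M)) :=
    IntermediateField.isAlgebraic_adjoin fun c hc => (hC₀ c hc).isIntegral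
  have hEtd : Algebra.trdeg k (IntermediateField.adjoin k (C₀ : Set M)) = 0 :=
    trdeg_eq_zero_iff.2 hEalg
  have hTE : ∀ y ∈ insert ζ (Finset.univ.image γ),
      y ∈ IntermediateField.adjoin k (C₀ : Set M) := fun y hy =>
    IntermediateField.subset_adjoin k _ (Finset.mem_coe.2 (hT hy))
  have hζE : ζ ∈ IntermediateField.adjoin k (C₀ : Set M) :=
    hTE ζ (Finset.mem_insert_self _ _)
  have hγE : ∀ i, γ i ∈ IntermediateField.adjoin k (C₀ : Set M) := fun i =>
    hTE _ (Finset.mem_insert_of_mem (Finset.mem_image_of_mem _ (Finset.mem_univ i)))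
  obtain ⟨K₀, hK₀⟩ : ∃ K₀, K₀ = IntermediateField.adjoin k (C₀ : Set M) ⊔
    IntermediateField.adjoin k (Set.range x) := ⟨_, rfl⟩
  have hxfg : (IntermediateField.adjoin k (Set.range x) : IntermediateField k M).FG :=
    ⟨Finset.univ.image x, by rw [Finset.coe_image, Finset.coe_univ, Set.image_univ]⟩
  have hK₀fg : K₀.FG := by
    rw [hK₀]
    exact IntermediateField.fg_sup hEfg hxfg
  have hEK₀ : IntermediateField.adjoin k (C₀ : Set M) ≤ K₀ := by
    rw [hK₀]
    exact le_sup_left
  have hxK₀ : IntermediateField.adjoin k (Set.range x) ≤ K₀ := by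
    rw [hK₀]
    exact le_sup_right
  have hK₀al : ∀ y : M, IsAlgebraic K₀ y := fun y => alg_le hxK₀ (hal y)
  have hx : AlgebraicIndependent (IntermediateField.adjoin k (C₀ : Set M)) x :=
    indep_plane htd _ hEtd x (by rw [← hK₀]; exact hK₀al)
  have hxk : AlgebraicIndependent k x :=
    hx.restrictScalars (FaithfulSMul.algebraMap_injective k _)
  have hu0 : ∀ l, u l ≠ 0 := by
    intro l hl
    apply h0 l
    apply (injective_iff_map_eq_zero _).1 hxk
    rw [hh x l, hl, zero_pow hN0.ne', zero_mul]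
  -- the generators
  obtain ⟨g, hg⟩ : ∃ g : Fin t → M, g = fun i => γ i * ∏ l, u l ^ e i l := ⟨_, rfl⟩
  have hγ0 : ∀ i, γ i ≠ 0 := by
    intro i hi
    have h3 := hγ i
    rw [hi, zero_pow hN0.ne'] at h3
    exact hc i ((map_eq_zero _).1 h3.symm)
  have hg0 : ∀ i, g i ≠ 0 := by
    intro i
    rw [hg]
    exact mul_ne_zero (hγ0 i) (Finset.prod_ne_zero_iff.2 fun l _ => pow_ne_zero _ (hu0 l))
  have hgE : ∀ i, g i ∈ IntermediateField.adjoin k (C₀ : Set M) := by
    intro i
    rw [hg]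
    exact mul_mem (hγE i) (prod_mem fun l _ => pow_mem (hu l) _)
  have hz' : ∀ i, (z i / g i) ^ N = MvPolynomial.aeval x (∏ j, π j ^ ∑ l, a l j * e i l) := by
    intro i
    rw [div_pow, div_eq_iff (pow_ne_zero _ (hg0 i)), hzN i, ← hγ i, hg, mul_pow, map_prod]
    have h3 : ∀ l, MvPolynomial.aeval x (h l) ^ e i l =
        (u l ^ e i l) ^ N * ∏ j, MvPolynomial.aeval x (π j) ^ (a l j * e i l) := by
      intro l
      rw [hh x l, mul_pow, ← Finset.prod_pow, ← pow_mul, ← pow_mul, mul_comm N]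
      congr 1
      exact Finset.prod_congr rfl fun j _ => by rw [← pow_mul]
    have h4 : ∀ j, MvPolynomial.aeval x (π j ^ ∑ l, a l j * e i l) =
        ∏ l, MvPolynomial.aeval x (π j) ^ (a l j * e i l) := by
      intro j
      rw [map_pow, Finset.prod_pow_eq_pow_sum]
    rw [Finset.prod_congr rfl fun l _ => h3 l, Finset.prod_congr rfl fun j _ => h4 j,
      Finset.prod_mul_distrib, Finset.prod_comm (s := (Finset.univ : Finset (Fin m))),
      ← Finset.prod_pow]
    ring
  have hz0 : ∀ i, z i / g i ≠ 0 := by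
    intro i hi
    have h3 := hz' i
    rw [hi, zero_pow hN0.ne'] at h3
    exact aeval_prod_ne hx π hirr _ h3.symm
  -- the weights
  obtain ⟨R, hR⟩ : ∃ R : ZMod N → ℤ, Wgt N R := by
    rcases hN with rfl | rfl | rfl | rfl
    · exact ⟨_, wgt2⟩
    · exact ⟨_, wgt3⟩
    · exact ⟨_, wgt4⟩
    · exact ⟨_, wgt6⟩
  have hFK : F ≤ KS K₀ fun i => z i / g i := by
    refine hF.trans ?_
    rw [IntermediateField.adjoin_le_iff]
    rintro y (hy | hy)
    · exact (le_sup_left : K₀ ≤ _) (hxK₀ (IntermediateField.subset_adjoin _ _ hy))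
    · rw [← hz] at hy
      obtain ⟨i, rfl⟩ := hy
      rw [SetLike.mem_coe, ← div_mul_cancel₀ (z i) (hg0 i)]
      exact mul_mem ((le_sup_right : IntermediateField.adjoin k
        (Set.range fun i => z i / g i) ≤ _) (IntermediateField.subset_adjoin k _ ⟨i, rfl⟩))
        ((le_sup_left : K₀ ≤ _) (hEK₀ (hgE i)))
  refine emt_of_inj (K' := KS K₀ fun i => z i / g i) (ι := Fin t → ZMod N)
    (fun ℓ hℓ => vl_res F _ hFK (KS_fg hK₀fg _) hFal hℓ) _
    (fun ℓ hℓ _ => ku_inj K₀ hK₀fg hK₀al hζ (hEK₀ hζE) hR (fun i => z i / g i) hz0 (fun i => by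
      rw [hz' i]
      exact aeval_mem_K hK₀ _) hℓ) fun c' => ?_
  refine emt_ind htd _ hEfg hEtd x hx K₀ hK₀ hK₀al h2 ω hω π hirr hass hN hNk hζ hζE N hN0
    dvd_rfl (mon (fun i => z i / g i) c')
    (fun j => ∑ i, (∑ l, a l j * e i l) * (c' i).val) ?_ fun q => ?_
  · rw [mon_pow]
    have h5 : ∀ i, ((z i / g i) ^ N) ^ (c' i).val =
        ∏ j, MvPolynomial.aeval x (π j) ^ ((∑ l, a l j * e i l) * (c' i).val) := by
      intro i
      rw [hz' i, map_prod, ← Finset.prod_pow]
      exact Finset.prod_congr rfl fun j _ => by rw [map_pow, ← pow_mul]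
    have h6 : ∀ j, MvPolynomial.aeval x (π j ^ ∑ i, (∑ l, a l j * e i l) * (c' i).val) =
        ∏ i, MvPolynomial.aeval x (π j) ^ ((∑ l, a l j * e i l) * (c' i).val) := by
      intro j
      rw [map_pow, Finset.prod_pow_eq_pow_sum]
    rw [Finset.prod_congr rfl fun i _ => h5 i, map_prod, Finset.prod_congr rfl fun j _ => h6 j,
      Finset.prod_comm]
  · refine cnd_of_W a _ _ (fun i => (hwa i).le) (q • ∑ i, (c' i).val • fun l => (e i l : ZMod N))
      (hW _ (W.nsmul_mem (W.sum_mem fun i _ => W.nsmul_mem (he i) _) q)) _ fun j => ?_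
    have h8 : ∀ l, (q • ∑ i, (c' i).val • fun l => (e i l : ZMod N)) l =
        (q : ZMod N) * ∑ i, ((c' i).val : ZMod N) * (e i l : ZMod N) := by
      intro l
      rw [Pi.smul_apply, Finset.sum_apply, nsmul_eq_mul]
      congr 1
      exact Finset.sum_congr rfl fun i _ => by rw [Pi.smul_apply, nsmul_eq_mul]
    simp only [h8]
    push_cast
    have h7 : ∀ l, (a l j : ZMod N) * ((q : ZMod N) * ∑ i, ((c' i).val : ZMod N) * (e i l : ZMod N)) =
        ∑ i, (q : ZMod N) * ((a l j : ZMod N) * (e i l : ZMod N) * ((c' i).val : ZMod N)) := by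
      intro l
      rw [Finset.mul_sum, Finset.mul_sum]
      exact Finset.sum_congr rfl fun i _ => by ring
    rw [Finset.sum_congr rfl fun l _ => h7 l, Finset.sum_comm, Finset.mul_sum]
    refine Finset.sum_congr rfl fun i _ => ?_
    rw [Finset.sum_mul, Finset.mul_sum]

end

end Pool.Agent.KTW
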