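import Pool.Agent.WLD.EAI

/-!
# Abelian Kummer extensions

If `z₁, …, z_r` satisfy `z_i ^ N ∈ E`, `E` contains the `N`-th roots of unity, then the group `V_ℓ`
of `E(z₁, …, z_r)` embeds in the product of the groups `V_ℓ` of the fields
`E(z₁ ^ c₁ ⋯ z_r ^ c_r)`, `c ∈ (Z / N) ^ r`.
-/

set_option autoImplicit false

namespace Pool.Agent.KTW

open Pool.Agent.TBR Pool.Agent.TUQ Pool.Agent.NOC Pool.Agent.WLD

universe u

/-- integral weights on `Z / N` whose sums over the cosets of nonzero ideals vanish -/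
structure Wgt (N : ℕ) [NeZero N] (R : ZMod N → ℤ) : Prop where
  r0 : R 0 ≠ 0
  sum : ∀ b v : ZMod N, v ≠ 0 → ∑ s : ZMod N, R (b + s * v) = 0

theorem wgt2 : Wgt 2 ![1, -1] := ⟨by decide, by decide⟩

theorem wgt3 : Wgt 3 ![2, -1, -1] := ⟨by decide, by decide⟩

theorem wgt4 : Wgt 4 ![2, 0, -2, 0] := ⟨by decide, by decide⟩

theorem wgt6 : Wgt 6 ![2, 1, -1, -2, -1, 1] := ⟨by decide, by decide⟩

/-- the sum over all characters -/
theorem Wgt.total {N : ℕ} [NeZero N] {R : ZMod N → ℤ} (h : Wgt N R) {r : ℕ} (v : Fin r → ZMod N)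
    (hv : v ≠ 0) : ∑ c : Fin r → ZMod N, R (∑ i, c i * v i) = 0 := by
  classical
  obtain ⟨i₀, hi₀⟩ : ∃ i, v i ≠ 0 := by
    by_contra h
    push Not at h
    exact hv (funext h)
  have key : ∀ (c : Fin r → ZMod N) (s : ZMod N),
      ∑ i, (c + (Pi.single i₀ s : Fin r → ZMod N)) i * v i = ∑ i, c i * v i + s * v i₀ := by
    intro c s
    have h2 : ∀ i, (c + (Pi.single i₀ s : Fin r → ZMod N)) i * v i =
        c i * v i + (Pi.single i₀ (s * v i₀) : Fin r → ZMod N) i := by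
      intro i
      rw [Pi.add_apply, add_mul]
      congr 1
      by_cases hi : i = i₀
      · subst hi
        rw [Pi.single_eq_same, Pi.single_eq_same]
      · rw [Pi.single_eq_of_ne hi, Pi.single_eq_of_ne hi, zero_mul]
    rw [Finset.sum_congr rfl fun i _ => h2 i, Finset.sum_add_distrib,
      Finset.sum_pi_single' i₀ (s * v i₀) Finset.univ, if_pos (Finset.mem_univ _)]
  have h1 : ∀ s : ZMod N, ∑ c : Fin r → ZMod N, R (∑ i, c i * v i) =
      ∑ c : Fin r → ZMod N, R (∑ i, c i * v i + s * v i₀) := by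
    intro s
    rw [← Equiv.sum_comp (Equiv.addRight (Pi.single i₀ s : Fin r → ZMod N))]
    refine Finset.sum_congr rfl fun c _ => ?_
    show R (∑ i, (c + (Pi.single i₀ s : Fin r → ZMod N)) i * v i) = _
    rw [key]
  have h2 : (Fintype.card (ZMod N) : ℤ) * ∑ c : Fin r → ZMod N, R (∑ i, c i * v i) = 0 := by
    have h3 : ∑ _s : ZMod N, ∑ c : Fin r → ZMod N, R (∑ i, c i * v i) =
        (Fintype.card (ZMod N) : ℤ) * ∑ c : Fin r → ZMod N, R (∑ i, c i * v i) := by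
      rw [Finset.sum_const, Finset.card_univ, nsmul_eq_mul]
    rw [← h3, Finset.sum_congr rfl fun s _ => h1 s, Finset.sum_comm]
    exact Finset.sum_eq_zero fun c _ => h.sum _ _ hi₀
  refine (mul_eq_zero.1 h2).resolve_left ?_
  exact_mod_cast Fintype.card_ne_zero

section

variable {k Ω : Type u} [Field k] [Field Ω] [Algebra k Ω]

/-- `z₁ ^ c₁ ⋯ z_r ^ c_r` -/
def mon {N r : ℕ} (z : Fin r → Ω) (c : Fin r → ZMod N) : Ω := ∏ i, z i ^ (c i).val

omit [Algebra k Ω] [Field k] in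
theorem pow_mod_prim {N : ℕ} {ζ : Ω} (hζ : IsPrimitiveRoot ζ N) (m : ℕ) : ζ ^ (m % N) = ζ ^ m := by
  conv_rhs => rw [← Nat.mod_add_div m N, pow_add, pow_mul, hζ.pow_eq_one, one_pow, mul_one]

omit [Algebra k Ω] [Field k] in
theorem rho_add {N : ℕ} [NeZero N] {ζ : Ω} (hζ : IsPrimitiveRoot ζ N) (v w : ZMod N) :
    ζ ^ (v + w).val = ζ ^ v.val * ζ ^ w.val := by
  rw [← pow_add, ZMod.val_add, pow_mod_prim hζ]

omit [Algebra k Ω] [Field k] in
theorem rho_mul {N : ℕ} [NeZero N] {ζ : Ω} (hζ : IsPrimitiveRoot ζ N) (v w : ZMod N) :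
    ζ ^ (v * w).val = (ζ ^ w.val) ^ v.val := by
  rw [← pow_mul, ZMod.val_mul, pow_mod_prim hζ, mul_comm]

omit [Algebra k Ω] [Field k] in
theorem rho_sum {N : ℕ} [NeZero N] {ζ : Ω} (hζ : IsPrimitiveRoot ζ N) {ι : Type*} (s : Finset ι)
    (v : ι → ZMod N) : ζ ^ (∑ i ∈ s, v i).val = ∏ i ∈ s, ζ ^ (v i).val := by
  classical
  induction s using Finset.induction_on with
  | empty => rw [Finset.sum_empty, Finset.prod_empty, ZMod.val_zero, pow_zero]
  | insert a s ha ih => rw [Finset.sum_insert ha, Finset.prod_insert ha, rho_add hζ, ih]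

omit [Algebra k Ω] [Field k] in
theorem rho_inj {N : ℕ} [NeZero N] {ζ : Ω} (hζ : IsPrimitiveRoot ζ N) (v : ZMod N)
    (h : ζ ^ v.val = 1) : v = 0 := by
  rw [hζ.pow_eq_one_iff_dvd] at h
  have h1 := Nat.eq_zero_of_dvd_of_lt h (ZMod.val_lt v)
  exact (ZMod.val_eq_zero v).1 h1

variable [IsAlgClosed Ω]

/-- **Abelian Kummer extensions.** -/
theorem ku_inj (E : IntermediateField k Ω) (hEfg : E.FG) (hE : ∀ x : Ω, IsAlgebraic E x)
    {N : ℕ} [NeZero N] {ζ : Ω} (hζ : IsPrimitiveRoot ζ N) (hζE : ζ ∈ E) {R : ZMod N → ℤ}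
    (hR : Wgt N R) {r : ℕ} (z : Fin r → Ω) (hz0 : ∀ i, z i ≠ 0) (hz : ∀ i, z i ^ N ∈ E)
    {ℓ : ℕ} (hℓ : ℓ.Prime) :
    ∃ f : Vl k (KS E z) Ω ℓ →* (∀ c : Fin r → ZMod N,
      Vl k (E ⊔ IntermediateField.adjoin k {mon z c} : IntermediateField k Ω) Ω ℓ),
      Function.Injective f := by
  classical
  have halg : ∀ F : IntermediateField k Ω, ∀ x : Ω,
      IsAlgebraic (E ⊔ F : IntermediateField k Ω) x := fun F x =>
    alg_mono (le_sup_left : E ≤ E ⊔ F) (hE x)
  let ρ : ZMod N → Ω := fun v => ζ ^ v.val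
  have hρ0 : ρ 0 = 1 := by
    show ζ ^ (0 : ZMod N).val = 1
    rw [ZMod.val_zero, pow_zero]
  have hρE : ∀ v, ρ v ∈ E := fun v => pow_mem hζE _
  -- the automorphisms act by roots of unity
  have htr : ∀ g ∈ Fx k (E : Set Ω), ∃ w : Fin r → ZMod N, ∀ i, g (z i) = ρ (w i) * z i := by
    intro g hg
    have h1 : ∀ i, ∃ v : ZMod N, g (z i) / z i = ρ v := by
      intro i
      have h2 : (g (z i) / z i) ^ N = 1 := by
        have h3 : g (z i ^ N) = z i ^ N := hg _ (hz i)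
        rw [div_pow, ← map_pow, h3, div_self (pow_ne_zero _ (hz0 i))]
      obtain ⟨j, hj, h4⟩ := hζ.eq_pow_of_pow_eq_one h2
      refine ⟨(j : ZMod N), ?_⟩
      show _ = ζ ^ (j : ZMod N).val
      rw [ZMod.val_natCast, Nat.mod_eq_of_lt hj, h4]
    choose w hw using h1
    exact ⟨w, fun i => by rw [← hw i, div_mul_cancel₀ _ (hz0 i)]⟩
  let P : (Fin r → ZMod N) → Prop := fun v =>
    ∃ g ∈ Fx k (E : Set Ω), ∀ i, g (z i) = ρ (v i) * z i
  have hP0 : P 0 := ⟨1, (Fx k (E : Set Ω)).one_mem, fun i => by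
    show z i = ρ 0 * z i
    rw [hρ0, one_mul]⟩
  have hψ : ∀ v : {v // P v}, ∃ g : Ω ≃ₐ[k] Ω, (g ∈ Fx k (E : Set Ω) ∧
      ∀ i, g (z i) = ρ (v.1 i) * z i) ∧ (v = ⟨0, hP0⟩ → g = 1) := by
    intro v
    by_cases h : v = ⟨0, hP0⟩
    · refine ⟨1, ⟨(Fx k (E : Set Ω)).one_mem, fun i => ?_⟩, fun _ => rfl⟩
      rw [h]
      show z i = ρ 0 * z i
      rw [hρ0, one_mul]
    · obtain ⟨g, h1, h2⟩ := v.2
      exact ⟨g, ⟨h1, h2⟩, fun h' => absurd h' h⟩
  choose ψ hψ using hψ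
  let w : (Fin r → ZMod N) → {v // P v} → ℤ := fun c v => R (∑ i, c i * v.1 i)
  refine inj_rel (KS E z)
    (fun c : Fin r → ZMod N => E ⊔ IntermediateField.adjoin k {mon z c})
    (KS_fg hEfg z) (fun c => IntermediateField.fg_sup hEfg ⟨{mon z c}, by
      rw [Finset.coe_singleton]⟩) (halg _) (fun c => halg _) ψ w ?_ (fun _ => 1) ⟨0, hP0⟩
    ((hψ _).2 rfl) ((Fintype.card (Fin r → ZMod N) : ℤ) * R 0) (mul_ne_zero ?_ hR.r0) ?_ ?_ hℓ
  · -- the permutations
    intro c g hg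
    have hgE : g ∈ Fx k (E : Set Ω) := fun x hx =>
      hg x ((le_sup_left : E ≤ E ⊔ IntermediateField.adjoin k {mon z c}) hx)
    obtain ⟨t, ht⟩ := htr g hgE
    have hct : ∑ i, c i * t i = 0 := by
      have h1 : g (mon z c) = mon z c := hg _
        ((le_sup_right : IntermediateField.adjoin k {mon z c} ≤ _)
          (IntermediateField.subset_adjoin k _ rfl))
      have h2 : g (mon z c) = ρ (∑ i, c i * t i) * mon z c := by
        show g (∏ i, z i ^ (c i).val) = ζ ^ (∑ i, c i * t i).val * ∏ i, z i ^ (c i).val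
        rw [map_prod, rho_sum hζ, ← Finset.prod_mul_distrib]
        refine Finset.prod_congr rfl fun i _ => ?_
        rw [map_pow, ht i, mul_pow, rho_mul hζ]
      have h3 : mon z c ≠ 0 := Finset.prod_ne_zero_iff.2 fun i _ => pow_ne_zero _ (hz0 i)
      apply rho_inj hζ
      rw [h1] at h2
      exact (mul_right_cancel₀ h3 (by rw [one_mul]; exact h2)).symm
    have hPt : ∀ v : {v // P v}, P (v.1 + t) := by
      intro v
      refine ⟨g * ψ v, (Fx k (E : Set Ω)).mul_mem hgE (hψ v).1.1, fun i => ?_⟩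
      show g (ψ v (z i)) = _
      rw [(hψ v).1.2 i, map_mul, hgE _ (hρE _), ht i]
      show ρ (v.1 i) * (ρ (t i) * z i) = ζ ^ (v.1 i + t i).val * z i
      rw [rho_add hζ, mul_assoc]
    have hinj : Function.Injective (fun v : {v // P v} => (⟨v.1 + t, hPt v⟩ : {v // P v})) := by
      intro v v' h
      exact Subtype.ext (add_right_cancel (congrArg Subtype.val h))
    refine ⟨Equiv.ofBijective _ (Finite.injective_iff_bijective.1 hinj), fun v => ⟨?_, ?_⟩⟩
    · show R (∑ i, c i * (v.1 + t) i) = R (∑ i, c i * v.1 i)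
      have h1 : ∑ i, c i * (v.1 + t) i = ∑ i, c i * v.1 i := by
        have h2 : ∀ i, c i * (v.1 + t) i = c i * v.1 i + c i * t i := fun i => by
          rw [Pi.add_apply, mul_add]
        rw [Finset.sum_congr rfl fun i _ => h2 i, Finset.sum_add_distrib, hct, add_zero]
      rw [h1]
    · intro x hx
      have hadj : KS E z = IntermediateField.adjoin k ((E : Set Ω) ∪ Set.range z) := by
        rw [IntermediateField.adjoin_union, IntermediateField.adjoin_self]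
      rw [hadj] at hx
      refine agree_adjoin (ψ v) (ψ ⟨v.1 + t, hPt v⟩) g ((E : Set Ω) ∪ Set.range z) ?_ x hx
      rintro y (hy | ⟨i, rfl⟩)
      · rw [(hψ v).1.1 y hy, (hψ ⟨v.1 + t, hPt v⟩).1.1 y hy]
        exact hgE y hy
      · rw [(hψ v).1.2 i, (hψ ⟨v.1 + t, hPt v⟩).1.2 i, map_mul, hgE _ (hρE _), ht i]
        show ρ (v.1 i) * (ρ (t i) * z i) = ζ ^ (v.1 i + t i).val * z i
        rw [rho_add hζ, mul_assoc]
  · exact_mod_cast Fintype.card_ne_zero
  · have h1 : ∀ c : Fin r → ZMod N, (1 : ℤ) * w c ⟨0, hP0⟩ = R 0 := by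
      intro c
      show (1 : ℤ) * R (∑ i, c i * (0 : ZMod N)) = R 0
      simp
    rw [Finset.sum_congr rfl fun c _ => h1 c, Finset.sum_const, Finset.card_univ, nsmul_eq_mul]
  · intro v hv
    have h1 : v.1 ≠ 0 := fun h => hv (Subtype.ext h)
    rw [← hR.total v.1 h1]
    exact Finset.sum_congr rfl fun c _ => one_mul _

end

end Pool.Agent.KTW
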