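import Pool.Agent.TUQ.F10
import Pool.Agent.TUQ.F11
import Pool.Agent.TUQ.R9
import Pool.Agent.KTW.E4

/-!
# The two cases of the theorem on Kummer extensions
-/

set_option autoImplicit false

namespace Pool.Agent.KTW

open Polynomial Pool.Agent.TBR Pool.Agent.TUQ Pool.Agent.UQ Pool.Agent.WLD

universe u

section

variable {k M : Type u} [Field k] [Field M] [Algebra k M]

/-- Case (i): `S = {z}`, `z ≠ 0`, `z ^ N ∈ K₀`, `X ^ N - z ^ N` is irreducible over `K₀`, the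
condition on `b = B₁ / B₂` holds and the threefold `w ^ N b(a) = z ^ N` over `K₀` is uniruled, for
instance because `z ^ N` belongs to the family `Fam`; `T` is the set of the fields
`K₀(z ^ (N / gcd(N, e)))`, `e` an order of a zero or pole of `b`. -/
def CaseC (K₀ : IntermediateField k M) (S : Finset M) (N : ℕ)
    (T : Set (IntermediateField k M)) : Prop :=
  ∃ (B₁ B₂ : k[X]) (z : M) (zN : z ^ N ∈ K₀), (S : Set M) = {z} ∧ z ≠ 0 ∧ Bc k M N B₁ B₂ ∧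
    Irreducible (X ^ N - C (⟨z ^ N, zN⟩ : K₀)) ∧
      T = {L | ∃ e ∈ bds k M B₁ B₂,
        L = K₀ ⊔ IntermediateField.adjoin k {z ^ (N / Nat.gcd N e)}} ∧
      (Fam K₀ z N B₁ B₂ ∨
        ∃ (L : Type u) (_ : Field L) (_ : Algebra k L) (_ : Algebra K₀ L)
          (_ : IsScalarTower k K₀ L) (a w : L), Transcendental K₀ a ∧
            w ^ N * aeval a B₁ = algebraMap K₀ L ⟨z ^ N, zN⟩ * aeval a B₂ ∧
              IntermediateField.adjoin K₀ {a, w} = ⊤ ∧ Uniruled k L)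

/-- Case (ii): `K₀ = k(x, y)`, `N = 2`, `3`, `4` or `6`, and every `z ∈ S` is a solution of
`z ^ N = c h₁(x, y) ^ e₁ ⋯ h_r(x, y) ^ e_r`, `c ∈ k`, `c ≠ 0`, where the vector `e` modulo `N` belongs
to a subgroup `W` of `(Z / N) ^ r` such that, for some weights `ω` of `x` and `y`, every `e ∈ W`
satisfies `∑ [e_i] wt h_i ≤ N (wt x + wt y)` or `∑ [-e_i] wt h_i ≤ N (wt x + wt y)`, where
`0 ≤ [e] < N`. -/
def CaseT (K₀ : IntermediateField k M) (S : Finset M) (N : ℕ) : Prop :=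
  (N = 2 ∨ N = 3 ∨ N = 4 ∨ N = 6) ∧ (2 : k) ≠ 0 ∧ (N : k) ≠ 0 ∧
    ∃ (x : Fin 2 → M) (r : ℕ) (h : Fin r → MvPolynomial (Fin 2) k) (ω : Fin 2 → ℕ)
      (W : AddSubgroup (Fin r → ZMod N)), K₀ = IntermediateField.adjoin k (Set.range x) ∧
        (∀ i, h i ≠ 0) ∧ 0 < ω 0 + ω 1 ∧
        (∀ e ∈ W, ∑ i, (e i).val * MvPolynomial.weightedTotalDegree ω (h i) ≤ N * (ω 0 + ω 1) ∨
          ∑ i, (-e i).val * MvPolynomial.weightedTotalDegree ω (h i) ≤ N * (ω 0 + ω 1)) ∧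
        ∀ z ∈ S, ∃ (c : k) (e : Fin r → ℕ), c ≠ 0 ∧ (fun i => (e i : ZMod N)) ∈ W ∧
          z ^ N = algebraMap k M c * ∏ i, MvPolynomial.aeval x (h i) ^ e i

theorem CaseT.emt [IsAlgClosed M] (htd : Algebra.trdeg k M = 2) {K₀ : IntermediateField k M}
    (hal : ∀ x : M, IsAlgebraic K₀ x) {S : Finset M} {N : ℕ} (h : CaseT K₀ S N)
    (F : IntermediateField k M) (hF : F ≤ K₀ ⊔ IntermediateField.adjoin k (S : Set M))
    (hFal : ∀ x : M, IsAlgebraic F x) : Emt F := by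
  obtain ⟨hN, h2, hNk, x, r, h, ω, W, rfl, h0, hω, hW, hS⟩ := h
  rw [← IntermediateField.adjoin_union] at hF
  exact tower_kummer htd x hal N hN hNk h2 h h0 ω hω W hW S hS F hF hFal

theorem CaseC.hom [IsAlgClosed M] (htd : Algebra.trdeg k M = 2) {K₀ : IntermediateField k M}
    (hfg : K₀.FG) (hal : ∀ x : M, IsAlgebraic K₀ x) {S : Finset M} {N : ℕ}
    {T : Set (IntermediateField k M)} (h : CaseC K₀ S N T)
    (F : IntermediateField k M) (hF : F ≤ K₀ ⊔ IntermediateField.adjoin k (S : Set M))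
    (hFal : ∀ x : M, IsAlgebraic F x) :
    ∃ (n : ℕ) (L : Fin n → IntermediateField k M),
      (∀ j, (Two (L j) ∨ L j ∈ T) ∧ ∀ x : M, IsAlgebraic (L j) x) ∧
      ∀ ℓ : ℕ, ℓ.Prime → (ℓ : k) ≠ 0 →
        ∃ f : Vl k F M ℓ →* (∀ j, Vl k (L j) M ℓ), Function.Injective f := by
  obtain ⟨B₁, B₂, z, zN, hS, z0, hb, irr, rfl, h⟩ := h
  obtain ⟨L, _, _, _, _, a, w, ha, hw, hgen, hL⟩ :
      ∃ (L : Type u) (_ : Field L) (_ : Algebra k L) (_ : Algebra K₀ L)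
        (_ : IsScalarTower k K₀ L) (a w : L), Transcendental K₀ a ∧
          w ^ N * aeval a B₁ = algebraMap K₀ L ⟨z ^ N, zN⟩ * aeval a B₂ ∧
            IntermediateField.adjoin K₀ {a, w} = ⊤ ∧ Uniruled k L := by
    rcases h with hF | h
    · have hN : 0 < N := Nat.pos_of_ne_zero fun h0 => hb.N0 (by rw [h0, Nat.cast_zero])
      have hF0 : (⟨z ^ N, zN⟩ : K₀) ≠ 0 := fun h0 => pow_ne_zero N z0 (congrArg Subtype.val h0)
      obtain ⟨L, i1, i2, i3, i4, a, w, ha, -, hw, hgen⟩ := fam_exists (k := k) N hN _ hF0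
      have hw' : w ^ N * aeval a B₁ = algebraMap K₀ L ⟨z ^ N, zN⟩ * aeval a B₂ := by
        rw [hF.1, hF.2.1]
        simpa using hw
      exact ⟨L, i1, i2, i3, i4, a, w, ha, hw', hgen,
        uniruled_family K₀ htd hal N B₁ B₂ hb z z0 zN L a w ha hw' hgen hF⟩
    · exact h
  obtain ⟨n, L', h1, h2⟩ := final2 (fun Ω _ _ => blockR k Ω) K₀ hfg htd hal N B₁ B₂
    hb z z0 zN irr L a w ha hw hgen hL
  rw [hS] at hF
  have hKfg : (K₀ ⊔ IntermediateField.adjoin k {z}).FG :=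
    IntermediateField.fg_sup hfg ⟨{z}, by rw [Finset.coe_singleton]⟩
  refine ⟨n, L', fun j => ⟨(h1 j).1, (h1 j).2⟩, fun ℓ hℓ hk => ?_⟩
  obtain ⟨a, ha⟩ := vl_res F (K₀ ⊔ IntermediateField.adjoin k {z}) hF hKfg hFal hℓ
  obtain ⟨f, hf⟩ := h2 ℓ hℓ hk
  exact ⟨f.comp a, fun x y hxy => ha (hf hxy)⟩

/-- the theorem without the theorem of Tate -/
theorem cases_hom [IsAlgClosed M] (htd : Algebra.trdeg k M = 2) (K₀ : IntermediateField k M)
    (hfg : K₀.FG) (hal : ∀ x : M, IsAlgebraic K₀ x) (S : Finset M) (N : ℕ)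
    (T : Set (IntermediateField k M)) (h : CaseC K₀ S N T ∨ CaseT K₀ S N ∧ T = ∅)
    (F : IntermediateField k M) (hF : F ≤ K₀ ⊔ IntermediateField.adjoin k (S : Set M))
    (hFal : ∀ x : M, IsAlgebraic F x) :
    ∃ (n : ℕ) (L : Fin n → IntermediateField k M),
      (∀ j, (Two (L j) ∨ L j ∈ T) ∧ ∀ x : M, IsAlgebraic (L j) x) ∧
      ∀ ℓ : ℕ, ℓ.Prime → (ℓ : k) ≠ 0 →
        ∃ f : Vl k F M ℓ →* (∀ j, Vl k (L j) M ℓ), Function.Injective f := by
  rcases h with h | ⟨h, -⟩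
  · exact h.hom htd hfg hal F hF hFal
  · obtain ⟨n, L, h5, h6⟩ := h.emt htd hal F hF hFal
    exact ⟨n, L, fun j => ⟨Or.inl (h5 j).1, (h5 j).2⟩, h6⟩

end

end Pool.Agent.KTW
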